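import Pool.Agent.Q260.QH.Perturb

set_option autoImplicit false

open Matrix Filter Topology

namespace Pool.Agent.Q260.QH

open Pool.Agent.H636R3.Quat

/-- A nonstandard involution of the quaternions: a real-linear map with `φ (x y) = φ y φ x` and
`φ (φ x) = x`, other than the conjugation `star`. -/
def IsNonstandardInvolution (φ : H → H) : Prop :=
  (∀ x y, φ (x + y) = φ x + φ y) ∧ (∀ (r : ℝ) (x : H), φ (r • x) = r • φ x) ∧
    (∀ x y, φ (x * y) = φ y * φ x) ∧ (∀ x, φ (φ x) = x) ∧ φ ≠ star

lemma re_zero_of_sq (q : H) (r : ℝ) (hr : 0 ≤ r) (h : q * q = ((-r : ℝ) : H)) : q.re = 0 := by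
  by_contra hq
  have h0 : (q * q).re = -r := by rw [h]; rfl
  have h1 : (q * q).imI = 0 := by rw [h]; rfl
  have h2 : (q * q).imJ = 0 := by rw [h]; rfl
  have h3 : (q * q).imK = 0 := by rw [h]; rfl
  rw [Quaternion.re_mul] at h0
  rw [Quaternion.imI_mul] at h1
  rw [Quaternion.imJ_mul] at h2
  rw [Quaternion.imK_mul] at h3
  have e1 : q.imI = 0 := by
    have : q.re * q.imI = 0 := by linarith
    exact (mul_eq_zero.1 this).resolve_left hq
  have e2 : q.imJ = 0 := by
    have : q.re * q.imJ = 0 := by linarith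
    exact (mul_eq_zero.1 this).resolve_left hq
  have e3 : q.imK = 0 := by
    have : q.re * q.imK = 0 := by linarith
    exact (mul_eq_zero.1 this).resolve_left hq
  rw [e1, e2, e3] at h0
  have : 0 < q.re * q.re := mul_self_pos.2 hq
  linarith

lemma pure_sq {q : H} (h : star q = -q) : q * q = ((-(‖q‖ ^ 2) : ℝ) : H) := by
  have h1 : star q * q = ((‖q‖ ^ 2 : ℝ) : H) := by
    rw [Quaternion.star_mul_self, Quaternion.normSq_eq_norm_mul_self, sq]
  rw [h, neg_mul] at h1
  rw [Quaternion.coe_neg, ← h1, neg_neg]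

lemma comm_form {β z : H} (hβ : β * β = -1) (hs : star β = -β) (h : z * β = β * z) :
    ∃ a t : ℝ, z = (a : H) + t • β := by
  set w : H := z - (z.re : H) with hw
  have hwre : w.re = 0 := by
    have h0 : w.re = z.re - ((z.re : ℝ) : H).re := Quaternion.re_sub z ((z.re : ℝ) : H)
    rw [h0, Quaternion.re_coe, sub_self]
  have hwstar : star w = -w := Quaternion.star_eq_neg.2 hwre
  have hwβ : w * β = β * w := by
    rw [hw, sub_mul, mul_sub, h, Quaternion.coe_commutes]
  have h1 : star (w * β) = w * β := by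
    rw [star_mul, hs, hwstar, neg_mul_neg, hwβ]
  have h2 := Quaternion.star_eq_self.1 h1
  set s : ℝ := (w * β).re with hsdef
  refine ⟨z.re, -s, ?_⟩
  have h3 : w = -(s • β) := by
    have h4 : w * β * β = s • β := by rw [h2, Quaternion.coe_mul_eq_smul]
    rw [mul_assoc, hβ, mul_neg, mul_one] at h4
    rw [← h4, neg_neg]
  have h5 : z = (z.re : H) + w := by rw [hw]; abel
  rw [neg_smul, ← h3]
  exact h5

lemma decomp_beta {β : H} (hβ : β * β = -1) (x : H) :
    ∃ x1 x2 : H, x = x1 + x2 ∧ x1 * β = β * x1 ∧ x2 * β = -(β * x2) := by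
  have e1 : β * x * β * β = -(β * x) := by rw [mul_assoc (β * x), hβ, mul_neg, mul_one]
  have e2 : β * (β * x * β) = -(x * β) := by
    rw [← mul_assoc, ← mul_assoc, hβ, neg_mul, one_mul, neg_mul]
  refine ⟨(1 / 2 : ℝ) • (x - β * x * β), (1 / 2 : ℝ) • (x + β * x * β), ?_, ?_, ?_⟩
  · rw [← smul_add]
    have : x - β * x * β + (x + β * x * β) = (2 : ℝ) • x := by rw [two_smul]; abel
    rw [this, smul_smul]; norm_num
  · rw [smul_mul_assoc, mul_smul_comm, sub_mul, mul_sub, e1, e2, sub_neg_eq_add, sub_neg_eq_add,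
      add_comm]
  · rw [smul_mul_assoc, mul_smul_comm, ← smul_neg, add_mul, mul_add, e1, e2, neg_add, neg_neg,
      add_comm]

theorem invol_form {φ : H → H} (hφ : IsNonstandardInvolution φ) :
    ∃ β : H, β * β = -1 ∧ star β = -β ∧ ∀ x, φ x = -(β * star x * β) := by
  obtain ⟨hadd, hsm, hmul, hinv, hne⟩ := hφ
  have hone : φ 1 = 1 := by
    have h1 := hmul (φ 1) 1
    rw [mul_one, hinv, mul_one] at h1
    exact h1.symm
  have hcoe : ∀ r : ℝ, φ (r : H) = (r : H) := by
    intro r
    have h1 : (r : H) = r • (1 : H) := by rw [← Quaternion.coe_mul_eq_smul, mul_one]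
    rw [h1, hsm, hone]
  have hneg : ∀ x, φ (-x) = -φ x := by
    intro x
    have h1 := hsm (-1) x
    rwa [neg_one_smul, neg_one_smul] at h1
  have hsub : ∀ x y, φ (x - y) = φ x - φ y := by
    intro x y
    rw [sub_eq_add_neg, hadd, hneg, sub_eq_add_neg]
  have hpure : ∀ p, star p = -p → star (φ p) = -φ p := by
    intro p hp
    apply Quaternion.star_eq_neg.2
    apply re_zero_of_sq (φ p) (‖p‖ ^ 2) (by positivity)
    rw [← hmul, pure_sq hp, hcoe]
  -- a pure quaternion which is not fixed
  obtain ⟨p, hp, hpf⟩ : ∃ p : H, star p = -p ∧ φ p ≠ p := by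
    by_contra hcon
    push Not at hcon
    have hi := hcon (om 1) (star_om 1)
    have hj := hcon jj star_jj
    have hk := hcon (om 1 * jj) (by rw [star_mul, star_om, star_jj, neg_mul_neg, om_jj])
    have h1 := hmul (om 1) jj
    rw [hk, hi, hj, om_jj] at h1
    have h4 : (om 1 * jj).imK = 1 := by
      rw [Quaternion.imK_mul]; simp [om, jj]
    have h3 : (om 1 * jj).imK = -(om 1 * jj).imK := congrArg QuaternionAlgebra.imK h1
    rw [h4] at h3
    norm_num at h3
  set b0 : H := p - φ p with hb0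
  have hb0ne : b0 ≠ 0 := by
    intro h
    exact hpf (sub_eq_zero.1 h).symm
  have hb0star : star b0 = -b0 := by
    rw [hb0, star_sub, hp, hpure p hp]; abel
  have hb0φ : φ b0 = -b0 := by
    rw [hb0, hsub, hinv]; abel
  have hnb : 0 < ‖b0‖ := norm_pos_iff.2 hb0ne
  set β : H := ‖b0‖⁻¹ • b0 with hβdef
  have hβ : β * β = -1 := by
    rw [hβdef, smul_mul_assoc, mul_smul_comm, smul_smul, pure_sq hb0star, Quaternion.smul_coe]
    have h1 : ‖b0‖⁻¹ * ‖b0‖⁻¹ * -(‖b0‖ ^ 2) = -1 := by field_simp
    rw [h1, Quaternion.coe_neg, Quaternion.coe_one]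
  have hβs : star β = -β := by
    rw [hβdef, Quaternion.star_smul, hb0star, smul_neg]
  have hβφ : φ β = -β := by
    rw [hβdef, hsm, hb0φ, smul_neg]
  clear_value β
  refine ⟨β, hβ, hβs, ?_⟩
  have hcomm : ∀ z, z * β = β * z → φ z = star z := by
    intro z hz
    obtain ⟨a, t, rfl⟩ := comm_form hβ hβs hz
    rw [hadd, hcoe, hsm, hβφ, star_add, Quaternion.star_coe, Quaternion.star_smul, hβs]
  have hanti_star : ∀ x, x * β = -(β * x) → star x = -x := by
    intro x hx
    apply Quaternion.star_eq_neg.2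
    have h1 : β * (x * β) = x := by
      rw [hx, mul_neg, ← mul_assoc, hβ, neg_mul, one_mul, neg_neg]
    have h2 : (β * (x * β)).re = -x.re := by
      rw [re_mul_comm, mul_assoc, hβ, mul_neg, mul_one, Quaternion.re_neg]
    rw [h1] at h2
    linarith
  -- anticommuting elements are fixed
  have hanti : ∀ x, x * β = -(β * x) → φ x = x := by
    by_cases hfix : ∃ x0 : H, x0 ≠ 0 ∧ x0 * β = -(β * x0) ∧ φ x0 = x0
    · obtain ⟨x0, hx0, hx0a, hx0f⟩ := hfix
      intro x hx
      set z : H := x * x0⁻¹ with hz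
      have hzx : z * x0 = x := by rw [hz, mul_assoc, inv_mul_cancel₀ hx0, mul_one]
      have hzc : z * β = β * z := by
        have h1 : z * β * x0 = β * z * x0 := by
          rw [mul_assoc z β x0, show β * x0 = -(x0 * β) by rw [hx0a, neg_neg], mul_neg, ← mul_assoc,
            hzx, mul_assoc β z x0, hzx, hx, neg_neg]
        exact mul_right_cancel₀ hx0 h1
      have h2 : φ x = x0 * star z := by
        rw [← hzx, hmul, hx0f, hcomm z hzc]
      obtain ⟨a, t, hat⟩ := comm_form hβ hβs hzc
      rw [h2, ← hzx, hat, star_add, Quaternion.star_coe, Quaternion.star_smul, hβs, mul_add,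
        add_mul, smul_neg, mul_neg, mul_smul_comm, hx0a, smul_mul_assoc, smul_neg, neg_neg,
        Quaternion.coe_commutes]
    · push Not at hfix
      exfalso
      apply hne
      have hanti2 : ∀ x, x * β = -(β * x) → φ x = -x := by
        intro x hx
        have h1 : φ x * β = -(β * φ x) := by
          have h2 := hmul x β
          rw [hx, hneg, hmul, hβφ, mul_neg, neg_neg, neg_mul] at h2
          exact h2
        by_contra hcon
        have hne0 : x + φ x ≠ 0 := by
          intro h
          apply hcon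
          exact eq_neg_of_add_eq_zero_right h
        apply hfix (x + φ x) hne0
        · rw [add_mul, mul_add, hx, h1, neg_add]
        · rw [hadd, hinv, add_comm]
      funext x
      obtain ⟨x1, x2, hx12, hc1, hc2⟩ := decomp_beta hβ x
      rw [hx12, hadd, hcomm x1 hc1, hanti2 x2 hc2, star_add, hanti_star x2 hc2]
  intro x
  obtain ⟨x1, x2, hx12, hc1, hc2⟩ := decomp_beta hβ x
  have hs1 : star x1 * β = β * star x1 := by
    have h1 := congrArg star hc1
    rw [star_mul, star_mul, hβs, neg_mul, mul_neg] at h1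
    exact (neg_injective h1).symm
  rw [hx12, hadd, hcomm x1 hc1, hanti x2 hc2, star_add, hanti_star x2 hc2, mul_add, add_mul,
    mul_neg, neg_mul, mul_assoc β (star x1), hs1, ← mul_assoc β β, hβ, mul_assoc β x2, hc2, mul_neg,
    ← mul_assoc β β, hβ]
  simp only [neg_mul, one_mul, neg_neg, neg_add]

end Pool.Agent.Q260.QH
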