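import Pool.Agent.Q260.QH.Perturb

set_option autoImplicit false

open Matrix Filter Topology

namespace Pool.Agent.Q260.QH

open Pool.Agent.H636R3.Quat

lemma OddSym.entry {n ℓ : ℕ} {A : ℕ → Matrix (Fin n) (Fin n) H} (hA : OddSym ℓ A) {k : ℕ}
    (hk : k ≤ ℓ) (a b : Fin n) : star (A k b a) = (-1 : ℝ) ^ (k + 1) • A k a b := by
  rcases Nat.even_or_odd k with h | h
  · have h1 := (hA k hk).2 h
    rw [h.add_one.neg_one_pow, neg_smul, one_smul, ← Matrix.conjTranspose_apply, h1,
      Matrix.neg_apply]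
  · have h1 := (hA k hk).1 h
    rw [h.add_one.neg_one_pow, one_smul, ← Matrix.conjTranspose_apply, h1]

lemma gmat_herm {n ℓ : ℕ} {A : ℕ → Matrix (Fin n) (Fin n) H} (hA : OddSym ℓ A) :
    (gmat ℓ A)ᴴ = gmat ℓ A := by
  ext1 p q
  rw [Matrix.conjTranspose_apply]
  unfold gmat
  have hcomm : (q.1 : ℕ) + (p.1 : ℕ) = (p.1 : ℕ) + (q.1 : ℕ) := add_comm _ _
  rw [hcomm]
  split_ifs with h
  · rw [Matrix.smul_apply, Matrix.smul_apply, Quaternion.star_smul, hA.entry h, smul_smul,
      ← pow_add]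
    congr 1
    have : (-1 : ℝ) ^ ((q.1 : ℕ) + ((p.1 : ℕ) + (q.1 : ℕ) + 1 + 1))
        = (-1) ^ (2 * (q.1 : ℕ)) * ((-1) ^ (p.1 : ℕ) * ((-1) * (-1))) := by
      rw [← mul_assoc ((-1 : ℝ) ^ (p.1 : ℕ)), ← pow_succ, ← pow_succ, ← pow_add]; congr 1; ring
    rw [this, pow_mul]
    norm_num
  · rw [star_zero]

section comp

variable {n L : ℕ} {A : ℕ → Matrix (Fin n) (Fin n) H}

lemma gc_skew (hA : OddSym (L + 1) A) (hinv : IsUnit (A (L + 1))) :
    (gmat (L + 1) A * companion (L + 1) A)ᴴ = -(gmat (L + 1) A * companion (L + 1) A) := by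
  ext1 p q
  rw [Matrix.conjTranspose_apply, Matrix.neg_apply, gc_apply hinv, gc_apply hinv]
  obtain ⟨⟨i, hi⟩, a⟩ := p
  obtain ⟨⟨k, hk⟩, b⟩ := q
  simp only []
  rcases Nat.eq_zero_or_pos i with hi0 | hi0
  · subst hi0
    rcases Nat.eq_zero_or_pos k with hk0 | hk0
    · subst hk0
      have h1 := hA.entry (Nat.zero_le _) a b
      simp only [lt_irrefl, dite_false, if_true, zero_add]
      have h2 : star (-(A 0 b a)) = -(-(A 0 a b)) := by
        rw [star_neg, h1, zero_add, pow_one, neg_smul, one_smul]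
      exact h2
    · have hk1 : k ≠ 0 := by omega
      simp only [lt_irrefl, dite_false, if_true, hk1, if_false, hk0, dite_true, add_zero,
        star_zero]
      unfold gmat
      simp only [zero_add, pow_zero, one_smul]
      have h3 : k - 1 + 1 = k := by omega
      rw [h3, if_pos (by omega)]
      have h4 : (0 : H) = -(A k a b + -(A k a b)) := by rw [add_neg_cancel, neg_zero]
      exact h4
  · have hi1 : i ≠ 0 := by omega
    rcases Nat.eq_zero_or_pos k with hk0 | hk0
    · subst hk0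
      simp only [lt_irrefl, dite_false, if_true, hi1, if_false, hi0, dite_true, add_zero]
      unfold gmat
      simp only [zero_add, pow_zero, one_smul]
      have h3 : i - 1 + 1 = i := by omega
      rw [h3, if_pos (by omega)]
      have h4 : star (A i b a + -(A i b a)) = -0 := by rw [add_neg_cancel, star_zero, neg_zero]
      exact h4
    · have hk1 : k ≠ 0 := by omega
      simp only [hi0, hk0, dite_true, hi1, hk1, if_false, add_zero]
      unfold gmat
      simp only []
      have e1 : k + (i - 1) + 1 = i + k := by omega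
      have e2 : i + (k - 1) + 1 = i + k := by omega
      rw [e1, e2]
      split_ifs with h
      · rw [Matrix.smul_apply, Matrix.smul_apply, Quaternion.star_smul, hA.entry h, smul_smul,
          ← pow_add, ← neg_smul]
        congr 1
        rw [show k + (i + k + 1) = 2 * k + (i + 1) by ring, pow_add, pow_mul, neg_one_sq, one_pow,
          one_mul, pow_succ, mul_neg_one]
      · rw [star_zero, neg_zero]

/-- the quadratic form `V* G V` -/
noncomputable def qg (A : ℕ → Matrix (Fin n) (Fin n) H) (V : Fin (L + 1) × Fin n → H) : ℝ :=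
  (star V ⬝ᵥ (gmat (L + 1) A *ᵥ V)).re

lemma z_comm (hA : OddSym (L + 1) A) (hinv : IsUnit (A (L + 1))) {μ : ℝ} (hμ : 0 < μ)
    {a b : Fin (L + 1) × Fin n → H} (ha : companion (L + 1) A *ᵥ a = fun p => a p * om μ)
    (hb : companion (L + 1) A *ᵥ b = fun p => b p * om μ) :
    (star a ⬝ᵥ (gmat (L + 1) A *ᵥ b)).imJ = 0 ∧
    (star a ⬝ᵥ (gmat (L + 1) A *ᵥ b)).imK = 0 := by
  set G := gmat (L + 1) A with hG
  set C := companion (L + 1) A with hC
  set y := star a ⬝ᵥ (G *ᵥ b) with hy
  have h1 : star a ⬝ᵥ ((G * C) *ᵥ b) = y * om μ := by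
    rw [← Matrix.mulVec_mulVec, hb, mulVec_rmul, dot_rmul]
  have h2 : star a ⬝ᵥ ((G * C) *ᵥ b) = om μ * y := by
    have h3 : star a ⬝ᵥ ((G * C) *ᵥ b) = -(star ((G * C) *ᵥ a) ⬝ᵥ b) := by
      rw [Matrix.dotProduct_mulVec, Matrix.star_mulVec, gc_skew hA hinv, Matrix.vecMul_neg,
        neg_dotProduct, neg_neg]
    rw [h3, ← Matrix.mulVec_mulVec, ha, mulVec_rmul, star_rmul_dot, star_om, Matrix.star_mulVec,
      gmat_herm hA, ← Matrix.dotProduct_mulVec, neg_mul, neg_neg]
  apply comm_om hμ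
  rw [← h1, h2]

lemma qg_decompose (hA : OddSym (L + 1) A) (hinv : IsUnit (A (L + 1))) {μ : ℝ} (hμ : 0 < μ)
    {a b : Fin (L + 1) × Fin n → H} (ha : companion (L + 1) A *ᵥ a = fun p => a p * om μ)
    (hb : companion (L + 1) A *ᵥ b = fun p => b p * om μ) :
    qg A (a + fun p => b p * jj) = qg A a + qg A b := by
  unfold qg
  set K := gmat (L + 1) A with hK
  rw [Matrix.mulVec_add, mulVec_rmul, star_add, add_dotProduct, dotProduct_add, dotProduct_add,
    star_rmul_dot, star_rmul_dot, dot_rmul, dot_rmul]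
  have h1 := z_comm hA hinv hμ ha hb
  have h2 := z_comm hA hinv hμ hb ha
  rw [← hK] at h1 h2
  simp only [Quaternion.re_add]
  have e1 : (star a ⬝ᵥ K *ᵥ b * jj).re = 0 := by
    rw [Quaternion.re_mul]; simp [jj, h1.1]
  have e2 : (star jj * (star b ⬝ᵥ K *ᵥ a)).re = 0 := by
    rw [star_jj, neg_mul, Quaternion.re_neg, Quaternion.re_mul]; simp [jj, h2.1]
  have e3 : (star jj * (star b ⬝ᵥ K *ᵥ b * jj)).re = (star b ⬝ᵥ K *ᵥ b).re := by
    rw [re_mul_comm, mul_assoc, star_jj, mul_neg, jj_sq, ← Quaternion.coe_neg, neg_neg,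
      Quaternion.coe_one, mul_one]
  rw [e1, e2, e3]
  ring

/-- the form on an eigenvector -/
lemma qg_eigvec {μ : ℝ} {c : Fin (L + 1) × Fin n → H}
    (hc : companion (L + 1) A *ᵥ c = fun p => c p * om μ) :
    qg A c = ∑ k ∈ Finset.range (L + 1 + 1),
      (k : ℝ) * (wv A (fun a => c (⟨0, by omega⟩, a)) k * om μ ^ (k - 1)).re := by
  set v : Fin n → H := fun a => c (⟨0, by omega⟩, a) with hv
  set f : ℕ → ℝ := fun k => (wv A v k * om μ ^ (k - 1)).re with hf
  have h1 : qg A c = (star c ⬝ᵥ (gmat (L + 1) A *ᵥ c)).re := rfl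
  have hcb : ∀ (k : Fin (L + 1)) (a : Fin n), c (k, a) = v a * om μ ^ (k : ℕ) :=
    fun k a => eigvec_block hc k k.2 a
  have hst : ∀ m : ℕ, star (om μ ^ m) = (-1 : ℝ) ^ m • om μ ^ m := by
    intro m
    rw [star_pow, star_om, neg_pow]
    rcases Nat.even_or_odd m with h | h
    · rw [h.neg_one_pow, h.neg_one_pow, one_mul, one_smul]
    · rw [h.neg_one_pow, h.neg_one_pow, neg_one_mul, neg_smul, one_smul]
  -- the block (i, j)
  have hblock : ∀ i j : Fin (L + 1), (∑ a, ∑ b, star (c (i, a)) *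
      (gmat (L + 1) A (i, a) (j, b) * c (j, b))).re
      = if (j : ℕ) < L + 1 - (i : ℕ) then f ((i : ℕ) + (j : ℕ) + 1) else 0 := by
    intro i j
    by_cases hij : (j : ℕ) < L + 1 - (i : ℕ)
    · rw [if_pos hij]
      have h2 : ∀ a b, star (c (i, a)) * (gmat (L + 1) A (i, a) (j, b) * c (j, b))
          = om μ ^ (i : ℕ) * (star (v a) * (A ((i : ℕ) + (j : ℕ) + 1) a b * v b))
            * om μ ^ (j : ℕ) := by
        intro a b
        rw [hcb, hcb, star_mul, hst]
        unfold gmat
        rw [if_pos (by simp only []; omega), Matrix.smul_apply]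
        simp only [smul_mul_assoc, mul_smul_comm, smul_smul]
        rw [← pow_add, ← two_mul, pow_mul]
        simp only [neg_one_sq, one_pow, one_smul, mul_assoc]
      simp only [h2]
      have h3 : ∑ a, ∑ b, om μ ^ (i : ℕ) * (star (v a) * (A ((i : ℕ) + (j : ℕ) + 1) a b * v b))
            * om μ ^ (j : ℕ)
          = om μ ^ (i : ℕ) * wv A v ((i : ℕ) + (j : ℕ) + 1) * om μ ^ (j : ℕ) := by
        unfold wv
        simp only [Matrix.mulVec, dotProduct, Finset.mul_sum, Finset.sum_mul, Pi.star_apply]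
      rw [h3, mul_assoc, re_mul_comm, mul_assoc, ← pow_add, hf]
      simp only []
      congr 3
      omega
    · rw [if_neg hij]
      have h2 : ∀ a b, star (c (i, a)) * (gmat (L + 1) A (i, a) (j, b) * c (j, b)) = 0 := by
        intro a b
        unfold gmat
        rw [if_neg (by simp only []; omega), zero_mul, mul_zero]
      simp only [h2, Finset.sum_const_zero]
      rfl
  have h4 : star c ⬝ᵥ (gmat (L + 1) A *ᵥ c) = ∑ i : Fin (L + 1), ∑ j : Fin (L + 1),
      ∑ a, ∑ b, star (c (i, a)) * (gmat (L + 1) A (i, a) (j, b) * c (j, b)) := by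
    simp only [Matrix.mulVec, dotProduct, Fintype.sum_prod_type, Finset.mul_sum,
      Pi.star_apply]
    apply Finset.sum_congr rfl
    intro i _
    rw [Finset.sum_comm]
  rw [h1, h4, re_sum]
  have h5 : ∀ i : Fin (L + 1), (∑ j : Fin (L + 1),
      ∑ a, ∑ b, star (c (i, a)) * (gmat (L + 1) A (i, a) (j, b) * c (j, b))).re
      = ∑ j ∈ Finset.range (L + 1 - (i : ℕ)), f ((i : ℕ) + j + 1) := by
    intro i
    rw [re_sum, Finset.sum_congr rfl (fun j _ => hblock i j)]
    rw [Fin.sum_univ_eq_sum_range (fun j => if j < L + 1 - (i : ℕ) then f ((i : ℕ) + j + 1) else 0),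
      ← Finset.sum_filter]
    apply Finset.sum_congr _ (fun _ _ => rfl)
    ext j
    simp only [Finset.mem_filter, Finset.mem_range]
    omega
  rw [Finset.sum_congr rfl (fun i _ => h5 i)]
  rw [Fin.sum_univ_eq_sum_range (fun i => ∑ j ∈ Finset.range (L + 1 - i), f (i + j + 1)),
    ← Finset.sum_range_diag_flip (L + 1) (fun i j => f (i + j + 1)),
    Finset.sum_range_succ' (fun k : ℕ => (k : ℝ) * (wv A v k * om μ ^ (k - 1)).re) (L + 1),
    Nat.cast_zero, zero_mul, add_zero]
  apply Finset.sum_congr rfl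
  intro m _
  have h6 : ∀ k ∈ Finset.range (m + 1), f (k + (m - k) + 1) = f (m + 1) := by
    intro k hk
    rw [Finset.mem_range] at hk
    congr 1
    omega
  rw [Finset.sum_congr rfl h6, Finset.sum_const, Finset.card_range, nsmul_eq_mul]

/-- in a stably bounded system there is no neutral eigenvector -/
lemma no_neutral (hA : OddSym (L + 1) A) (hinv : IsUnit (A (L + 1)))
    (hst : StablyBounded (L + 1) A) {μ : ℝ} {c : Fin (L + 1) × Fin n → H}
    (hc : companion (L + 1) A *ᵥ c = fun p => c p * om μ) (hc0 : c ≠ 0) : qg A c ≠ 0 := by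
  intro hq
  rw [qg_eigvec hc] at hq
  exact not_stable_of_neutral (by omega) hA (eigvec_ne hc hc0) (om_re μ)
    (eigvec_eq hinv hc) hq hst

lemma qg_path (c d : Fin (L + 1) × Fin n → H) :
    Continuous (fun s : ℝ => qg A ((1 - s) • c + s • d)) := by
  unfold qg
  have : Continuous (fun s : ℝ => star ((1 - s) • c + s • d) ⬝ᵥ
      (gmat (L + 1) A *ᵥ ((1 - s) • c + s • d))) := by
    simp only [Matrix.mulVec, dotProduct, Pi.star_apply, Pi.add_apply, Pi.smul_apply]
    fun_prop
  exact Quaternion.continuous_re.comp this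

lemma qg_smul (r : ℝ) (c : Fin (L + 1) × Fin n → H) : qg A (r • c) = r ^ 2 * qg A c := by
  unfold qg
  have h1 : star (r • c) = r • star c := by
    funext p
    rw [Pi.star_apply, Pi.smul_apply, Pi.smul_apply, Pi.star_apply, Quaternion.star_smul]
  rw [Matrix.mulVec_smul, h1, smul_dotProduct, dotProduct_smul, smul_smul,
    Quaternion.re_smul, smul_eq_mul, sq]

/-- the form is definite on the eigenvectors -/
lemma definite_eig (hA : OddSym (L + 1) A) (hinv : IsUnit (A (L + 1)))
    (hst : StablyBounded (L + 1) A) {μ : ℝ} {c d : Fin (L + 1) × Fin n → H}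
    (hc : companion (L + 1) A *ᵥ c = fun p => c p * om μ) (hc0 : c ≠ 0)
    (hd : companion (L + 1) A *ᵥ d = fun p => d p * om μ)
    (hqc : qg A c < 0) (hqd : 0 < qg A d) : False := by
  have hcont := qg_path (A := A) c d
  obtain ⟨s, hs, hqs⟩ := intermediate_value_Icc (zero_le_one (α := ℝ)) hcont.continuousOn
    (show (0 : ℝ) ∈ Set.Icc _ _ from ⟨by simpa using hqc.le, by simpa using hqd.le⟩)
  have heig : companion (L + 1) A *ᵥ ((1 - s) • c + s • d)
      = fun p => ((1 - s) • c + s • d) p * om μ := by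
    rw [Matrix.mulVec_add, Matrix.mulVec_smul, Matrix.mulVec_smul, hc, hd]
    funext p
    simp only [Pi.add_apply, Pi.smul_apply, add_mul, smul_mul_assoc]
  by_cases h0 : (1 - s) • c + s • d = 0
  · -- then `d` is a multiple of `c`
    have hs0 : s ≠ 0 := by
      rintro rfl
      rw [sub_zero, one_smul, zero_smul, add_zero] at h0
      exact hc0 h0
    have h1 : d = (-((1 - s) / s)) • c := by
      have h2 : s • d = -((1 - s) • c) := eq_neg_of_add_eq_zero_right h0
      have h3 : d = s⁻¹ • (s • d) := by rw [smul_smul, inv_mul_cancel₀ hs0, one_smul]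
      rw [h3, h2, smul_neg, smul_smul, ← neg_smul]
      congr 1
      field_simp
    rw [h1, qg_smul] at hqd
    nlinarith [sq_nonneg (-((1 - s) / s))]
  · exact no_neutral hA hinv hst heig h0 hqs

/-- bounded systems have a semisimple eigenvalue zero -/
lemma kernel_zero (hinv : IsUnit (A (L + 1))) (hb : IsBoundedSystem (L + 1) A)
    (W : Fin (L + 1) × Fin n → H)
    (hNN : companion (L + 1) A *ᵥ (companion (L + 1) A *ᵥ W) = 0) :
    companion (L + 1) A *ᵥ W = 0 := by
  set C := companion (L + 1) A with hC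
  set Z := C *ᵥ W with hZdef
  set y : ℝ → Fin (L + 1) × Fin n → H := fun s => W + s • Z with hy
  have hder : ∀ t q, HasDerivAt (fun s => y s q) ((companion (L + 1) A *ᵥ y t) q) t := by
    intro t q
    have h1 : (companion (L + 1) A *ᵥ y t) q = Z q := by
      simp only [hy]
      rw [← hC, Matrix.mulVec_add, Matrix.mulVec_smul, hNN, smul_zero, add_zero]
    rw [h1]
    have h2 : HasDerivAt (fun s : ℝ => s • Z q) ((1 : ℝ) • Z q) t :=
      (hasDerivAt_id t).smul_const (Z q)
    rw [one_smul] at h2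
    exact h2.const_add (W q)
  obtain ⟨c, hc⟩ := hb _ (isSolution_first hinv (y := y) hder)
  have hca : ∀ t a, ‖y t (⟨0, by omega⟩, a)‖ ≤ c := fun t a =>
    (norm_le_pi_norm (fun a => y t (⟨0, by omega⟩, a)) a).trans (hc t)
  have hZ0 : ∀ a, Z (⟨0, by omega⟩, a) = 0 := by
    intro a
    by_contra hz
    have hz' : 0 < ‖Z (⟨0, by omega⟩, a)‖ := norm_pos_iff.2 hz
    set w := ‖W (⟨0, by omega⟩, a)‖ with hw
    set z := ‖Z (⟨0, by omega⟩, a)‖ with hzd
    set t : ℝ := (c + w + 1) / z with ht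
    have hcn : 0 ≤ c := (norm_nonneg _).trans (hca 0 a)
    have hwn : 0 ≤ w := norm_nonneg _
    have ht0 : 0 ≤ t := by positivity
    have h1 := hca t a
    have h2 : ‖t • Z (⟨0, by omega⟩, a)‖ ≤ c + w := by
      have h3 : t • Z (⟨0, by omega⟩, a) = y t (⟨0, by omega⟩, a) - W (⟨0, by omega⟩, a) := by
        simp only [hy, Pi.add_apply, Pi.smul_apply]
        abel
      rw [h3]
      exact (norm_sub_le _ _).trans (by linarith)
    rw [norm_smul, Real.norm_of_nonneg ht0, ← hzd, ht, div_mul_cancel₀ _ hz'.ne'] at h2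
    linarith
  have hpow : ∀ k, 1 ≤ k → C ^ k *ᵥ Z = 0 := by
    intro k hk
    obtain ⟨m, rfl⟩ : ∃ m, k = m + 1 := ⟨k - 1, by omega⟩
    rw [pow_succ, ← Matrix.mulVec_mulVec, hNN, Matrix.mulVec_zero]
  funext ⟨⟨k, hk⟩, a⟩
  rw [Pi.zero_apply, ← comp_first Z k hk a]
  rcases Nat.eq_zero_or_pos k with h | h
  · subst h
    rw [pow_zero, Matrix.one_mulVec]
    exact hZ0 a
  · rw [hC] at hpow
    rw [hpow k h]
    rfl

end comp

/-- **Q1 holds.** If the system `A_ℓ x^(ℓ) + … + A_1 x' + A_0 x = 0` over the real quaternions, with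
`A_k` hermitian for odd `k`, skewhermitian for even `k` and `A_ℓ` invertible, is stably bounded, then
every root subspace of its companion matrix `C` is `G`-positive or `G`-negative. -/
theorem main (n ℓ : ℕ) (hℓ : 1 ≤ ℓ) (A : ℕ → Matrix (Fin n) (Fin n) H)
    (hA : OddSym ℓ A) (hinv : IsUnit (A ℓ)) (hst : StablyBounded ℓ A) (l : H)
    (hl : IsEigenvalue (companion ℓ A) l) :
    IsPositiveOn (gmat ℓ A) (rootSubspace (companion ℓ A) l) ∨
      IsNegativeOn (gmat ℓ A) (rootSubspace (companion ℓ A) l) := by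
  obtain ⟨L, rfl⟩ : ∃ L, ℓ = L + 1 := ⟨ℓ - 1, by omega⟩
  set C := companion (L + 1) A with hCdef
  -- the system is bounded
  have hb : IsBoundedSystem (L + 1) A := by
    obtain ⟨ε, hε, h⟩ := hst
    exact h A hA (fun k _ a b => by rw [sub_self, norm_zero]; exact hε)
  -- the eigenvalue has real part zero
  obtain ⟨V, hV0, hV⟩ := hl
  have hre : l.re = 0 := by
    by_contra hre
    exact unbounded_exp (eigvec_ne hV hV0) hre (eigvec_eq hinv hV) hb
  have hn : 0 < n := by
    rcases Nat.eq_zero_or_pos n with h | h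
    · subst h
      exfalso
      apply hV0
      funext p
      exact p.2.elim0
    · exact h
  have hcard : Fintype.card (Fin (L + 1) × Fin n) = (Fintype.card (Fin (L + 1) × Fin n) - 1) + 1 := by
    have : 0 < Fintype.card (Fin (L + 1) × Fin n) := by
      rw [Fintype.card_prod, Fintype.card_fin, Fintype.card_fin]
      exact Nat.mul_pos (by omega) hn
    omega
  set μ : ℝ := ‖l‖ with hμdef
  have hq0 : qg A (0 : Fin (L + 1) × Fin n → H) = 0 := by
    have := qg_smul (A := A) (0 : ℝ) (0 : Fin (L + 1) × Fin n → H)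
    rw [smul_zero] at this
    rw [this]; ring
  -- the form is real
  have hreal : ∀ W : Fin (L + 1) × Fin n → H,
      star W ⬝ᵥ (gmat (L + 1) A *ᵥ W) = ((qg A W : ℝ) : H) := by
    intro W
    have h1 : star (star W ⬝ᵥ (gmat (L + 1) A *ᵥ W)) = star W ⬝ᵥ (gmat (L + 1) A *ᵥ W) := by
      rw [← Matrix.star_dotProduct_star, star_star, Matrix.star_mulVec, gmat_herm hA,
        Matrix.dotProduct_mulVec]
    exact Quaternion.star_eq_self.1 h1
  -- eigenvectors from vectors of the root subspace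
  have hdec : ∀ W ∈ rootSubspace C l, W ≠ 0 → ∃ a b : Fin (L + 1) × Fin n → H,
      C *ᵥ a = (fun p => a p * om μ) ∧ C *ᵥ b = (fun p => b p * om μ) ∧ (a ≠ 0 ∨ b ≠ 0) ∧
      qg A W = qg A a + qg A b := by
    by_cases hl0 : l = 0
    · -- the eigenvalue zero
      intro W hW hW0
      have hroot : rootPoly C l = C := by
        unfold rootPoly
        rw [if_pos (by rw [hl0]; rfl), hre, zero_smul, sub_zero]
      have hW' : C ^ (Fintype.card (Fin (L + 1) × Fin n)) *ᵥ W = 0 := by
        have h0 : (rootPoly C l) ^ (Fintype.card (Fin (L + 1) × Fin n)) *ᵥ W = 0 := hW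
        rwa [hroot] at h0
      have hstep : ∀ k : ℕ, C ^ (k + 1) *ᵥ W = 0 → C *ᵥ W = 0 := by
        intro k
        induction k with
        | zero => intro h; rwa [zero_add, pow_one] at h
        | succ k ih =>
          intro h
          apply ih
          rw [pow_succ', ← Matrix.mulVec_mulVec]
          apply kernel_zero hinv hb
          rw [← hCdef, Matrix.mulVec_mulVec, Matrix.mulVec_mulVec, ← sq, ← pow_add,
            show 2 + k = k + 1 + 1 by ring]
          exact h
      rw [hcard] at hW'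
      have h1 := hstep _ hW'
      have hom : om μ = 0 := by
        rw [hμdef, hl0, norm_zero]
        rfl
      refine ⟨W, 0, ?_, ?_, Or.inl hW0, ?_⟩
      · rw [h1, hom]; funext p; simp
      · rw [Matrix.mulVec_zero]; funext p; simp
      · rw [hq0, add_zero]
    · -- a nonzero purely imaginary eigenvalue
      have hμ : 0 < μ := norm_pos_iff.2 hl0
      have hnotreal : ¬ l = (l.re : H) := by
        rw [hre]
        intro h
        exact hl0 (h.trans Quaternion.coe_zero)
      have hroot : rootPoly C l = C ^ 2 + (μ ^ 2) • 1 := by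
        unfold rootPoly
        rw [if_neg hnotreal, hre, mul_zero, zero_smul, sub_zero]
      have hker : ∀ W ∈ rootSubspace C l, C *ᵥ (C *ᵥ W) = -((μ ^ 2) • W) := by
        intro W hW
        have hW' : (C ^ 2 + (μ ^ 2) • 1) ^ (Fintype.card (Fin (L + 1) × Fin n)) *ᵥ W = 0 := by
          rw [← hroot]; exact hW
        have hstep : ∀ k : ℕ, (C ^ 2 + (μ ^ 2) • 1) ^ (k + 1) *ᵥ W = 0 →
            (C ^ 2 + (μ ^ 2) • 1) *ᵥ W = 0 := by
          intro k
          induction k with
          | zero => intro h; rwa [zero_add, pow_one] at h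
          | succ k ih =>
            intro h
            apply ih
            rw [pow_succ', ← Matrix.mulVec_mulVec]
            apply kernel_sq hinv hb hμ
            rw [← hCdef, Matrix.mulVec_mulVec, Matrix.mulVec_mulVec, ← sq, ← pow_add,
              show 2 + k = k + 1 + 1 by ring]
            exact h
        rw [hcard] at hW'
        have h1 := hstep _ hW'
        rw [Matrix.add_mulVec, sq C, ← Matrix.mulVec_mulVec, Matrix.smul_mulVec,
          Matrix.one_mulVec] at h1
        exact eq_neg_of_add_eq_zero_left h1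
      intro W hW hW0
      obtain ⟨a, b, ha, hb', hab⟩ := decompose C hμ W (hker W hW)
      refine ⟨a, b, ha, hb', ?_, ?_⟩
      · by_contra hcon
        push Not at hcon
        apply hW0
        rw [hab, hcon.1, hcon.2]
        funext p; simp
      · rw [hab]; exact qg_decompose hA hinv hμ ha hb'
  have hneg : ∀ W ∈ rootSubspace C l, W ≠ 0 → qg A W ≤ 0 → ∃ c : Fin (L + 1) × Fin n → H,
      C *ᵥ c = (fun p => c p * om μ) ∧ c ≠ 0 ∧ qg A c < 0 := by
    intro W hW hW0 hle
    obtain ⟨a, b, ha, hb', hab, hq⟩ := hdec W hW hW0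
    by_cases ha0 : a = 0
    · have hb0 : b ≠ 0 := by rcases hab with h | h; exact absurd ha0 h; exact h
      rw [ha0, hq0, zero_add] at hq
      exact ⟨b, hb', hb0, lt_of_le_of_ne (hq ▸ hle) (no_neutral hA hinv hst hb' hb0)⟩
    · by_cases hb0 : b = 0
      · rw [hb0, hq0, add_zero] at hq
        exact ⟨a, ha, ha0, lt_of_le_of_ne (hq ▸ hle) (no_neutral hA hinv hst ha ha0)⟩
      · by_cases hqa : qg A a ≤ 0
        · exact ⟨a, ha, ha0, lt_of_le_of_ne hqa (no_neutral hA hinv hst ha ha0)⟩
        · push Not at hqa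
          exact ⟨b, hb', hb0, by linarith⟩
  have hpos : ∀ W ∈ rootSubspace C l, W ≠ 0 → 0 ≤ qg A W → ∃ c : Fin (L + 1) × Fin n → H,
      C *ᵥ c = (fun p => c p * om μ) ∧ c ≠ 0 ∧ 0 < qg A c := by
    intro W hW hW0 hle
    obtain ⟨a, b, ha, hb', hab, hq⟩ := hdec W hW hW0
    by_cases ha0 : a = 0
    · have hb0 : b ≠ 0 := by rcases hab with h | h; exact absurd ha0 h; exact h
      rw [ha0, hq0, zero_add] at hq
      exact ⟨b, hb', hb0, lt_of_le_of_ne (hq ▸ hle) (no_neutral hA hinv hst hb' hb0).symm⟩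
    · by_cases hb0 : b = 0
      · rw [hb0, hq0, add_zero] at hq
        exact ⟨a, ha, ha0, lt_of_le_of_ne (hq ▸ hle) (no_neutral hA hinv hst ha ha0).symm⟩
      · by_cases hqa : 0 ≤ qg A a
        · exact ⟨a, ha, ha0, lt_of_le_of_ne hqa (no_neutral hA hinv hst ha ha0).symm⟩
        · push Not at hqa
          exact ⟨b, hb', hb0, by linarith⟩
  by_cases hall : ∀ W ∈ rootSubspace C l, W ≠ 0 → 0 < qg A W
  · left
    intro W hW hW0
    exact ⟨qg A W, hall W hW hW0, hreal W⟩
  · right
    push Not at hall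
    obtain ⟨W1, hW1, hW10, hle1⟩ := hall
    obtain ⟨c, hc, hc0, hqc⟩ := hneg W1 hW1 hW10 hle1
    intro W hW hW0
    refine ⟨qg A W, ?_, hreal W⟩
    by_contra hcon
    push Not at hcon
    obtain ⟨d, hd, -, hqd⟩ := hpos W hW hW0 hcon
    exact definite_eig hA hinv hst hc hc0 hd hqc hqd

end Pool.Agent.Q260.QH
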