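import Pool.Agent.Q260.QH.Main
import Pool.Agent.Q260.QH.Invol

set_option autoImplicit false

open Matrix Filter Topology

namespace Pool.Agent.Q260.QH

open Pool.Agent.H636R3.Quat

theorem exists_unbounded {n ℓ : ℕ} (hℓ : 1 ≤ ℓ) {A : ℕ → Matrix (Fin n) (Fin n) H}
    (hA : OddSym ℓ A) {v : Fin n → H} (hv : v ≠ 0) {ω : H} (hω : ω.re = 0)
    (heq : ∑ k ∈ Finset.range (ℓ + 1), A k *ᵥ (fun a => v a * ω ^ k) = 0)
    (hneu : ∑ k ∈ Finset.range (ℓ + 1), (k : ℝ) * (wv A v k * ω ^ (k - 1)).re = 0) :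
    ∀ ε₀ : ℝ, 0 < ε₀ → ∃ A' : ℕ → Matrix (Fin n) (Fin n) H, OddSym ℓ A' ∧
      (∀ k, A' (k + 2) = A (k + 2)) ∧
      (∀ k, k ≤ ℓ → ∀ a b, ‖A' k a b - A k a b‖ < ε₀) ∧ ¬ IsBoundedSystem ℓ A' := by
  intro ε₀ hε₀
  -- norm of v
  set ν : ℝ := ∑ a, ‖v a‖ ^ 2 with hν
  have hνpos : 0 < ν := by
    obtain ⟨a, ha⟩ := Function.ne_iff.1 hv
    have ha' : 0 < ‖v a‖ := norm_pos_iff.2 ha
    apply Finset.sum_pos' (fun i _ => by positivity) ⟨a, Finset.mem_univ a, by positivity⟩
  have hvv : star v ⬝ᵥ v = (ν : H) := by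
    have hcs : ((∑ a, ‖v a‖ ^ 2 : ℝ) : H) = ∑ a, ((‖v a‖ ^ 2 : ℝ) : H) :=
      map_sum (algebraMap ℝ (Quaternion ℝ)) (fun a => ‖v a‖ ^ 2) Finset.univ
    rw [hν, dotProduct, hcs]
    apply Finset.sum_congr rfl
    intro a _
    rw [Pi.star_apply, Quaternion.star_mul_self, Quaternion.normSq_eq_norm_mul_self, sq]
  set lam : ℝ → H := fun e => ω + (e : H) with hlam
  set r : ℝ → Fin n → H := fun e => ∑ k ∈ Finset.range (ℓ + 1), A k *ᵥ (fun a => v a * lam e ^ k)
    with hr
  set α : ℝ → H := fun e => ν⁻¹ • ∑ k ∈ Finset.range (ℓ + 1), wv A v k * lam e ^ k with hα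
  have hαr : ∀ e, star v ⬝ᵥ r e = (ν : H) * α e := by
    intro e
    have h1 : ∀ k, star v ⬝ᵥ (A k *ᵥ (fun a => v a * lam e ^ k)) = wv A v k * lam e ^ k := by
      intro k
      rw [mulVec_rmul, dot_rmul]; rfl
    simp only [hr, hα]
    rw [dotProduct_sum, Finset.sum_congr rfl (fun k _ => h1 k)]
    rw [mul_smul_comm, Quaternion.coe_mul_eq_smul, smul_smul, inv_mul_cancel₀ hνpos.ne', one_smul]
  have hlamc : Continuous lam := by
    simp only [hlam]
    exact continuous_const.add Quaternion.continuous_coe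
  have hrc : Continuous r := by
    simp only [hr]
    refine continuous_finsetSum _ (fun k _ => ?_)
    refine continuous_pi (fun a => ?_)
    simp only [Matrix.mulVec, dotProduct]
    fun_prop
  have hαc : Continuous α := by
    simp only [hα]
    fun_prop
  have hlam0 : lam 0 = ω := by simp [hlam]
  have hr0 : r 0 = 0 := by simp only [hr, hlam0]; exact heq
  have hα0 : α 0 = 0 := by
    have h1 := hαr 0
    rw [hr0, dotProduct_zero] at h1
    rcases mul_eq_zero.1 h1.symm with h2 | h2
    · exfalso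
      have h3 : ((ν : ℝ) : H) = ((0 : ℝ) : H) := by simpa using h2
      exact hνpos.ne' (Quaternion.coe_injective h3)
    · exact h2
  -- the function h, the real part of α
  set h : ℝ → ℝ := fun e => inner ℝ (α e) (1 : H) with hh
  have hhre : ∀ e, h e = (α e).re := by
    intro e
    simp only [hh]
    rw [Quaternion.inner_def, star_one, mul_one]
  have hαder : HasDerivAt α (ν⁻¹ • ∑ k ∈ Finset.range (ℓ + 1), wv A v k * ((k : ℝ) • ω ^ (k - 1))) 0 := by
    have hs0 : HasDerivAt (fun e => ∑ k ∈ Finset.range (ℓ + 1), wv A v k * lam e ^ k)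
        (∑ k ∈ Finset.range (ℓ + 1), wv A v k * ((k : ℝ) • ω ^ (k - 1))) 0 := by
      apply HasDerivAt.fun_sum
      intro k _
      have h1 := (hasDerivAt_shift_pow ω k 0).const_mul (wv A v k)
      have h2 : ω + ((0 : ℝ) : H) = ω := by simp
      rw [h2] at h1
      exact h1
    exact hs0.const_smul ν⁻¹
  have hhder : HasDerivAt h 0 0 := by
    have h1 := hαder.inner ℝ (hasDerivAt_const (0 : ℝ) (1 : H))
    rw [inner_zero_right, zero_add] at h1
    have h2 : inner ℝ (ν⁻¹ • ∑ k ∈ Finset.range (ℓ + 1), wv A v k * ((k : ℝ) • ω ^ (k - 1))) (1 : H)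
        = 0 := by
      rw [inner_smul_left, Quaternion.inner_def, star_one, mul_one, re_sum]
      have h3 : ∀ k, (wv A v k * ((k : ℝ) • ω ^ (k - 1))).re
          = (k : ℝ) * (wv A v k * ω ^ (k - 1)).re := by
        intro k
        rw [mul_smul_comm, Quaternion.re_smul, smul_eq_mul]
      rw [Finset.sum_congr rfl (fun k _ => h3 k), hneu]
      simp
    rw [h2] at h1
    exact h1
  have hh0 : h 0 = 0 := by simp only [hh]; rw [hα0, inner_zero_left]
  set ξ : ℝ → ℝ := fun e => -(h e / e) with hξ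
  have hξlim : Tendsto ξ (𝓝[≠] 0) (𝓝 0) := by
    have h1 := hasDerivAt_iff_tendsto_slope.1 hhder
    have h2 : Tendsto (fun e => -(slope h 0 e)) (𝓝[≠] 0) (𝓝 (-0)) := h1.neg
    rw [neg_zero] at h2
    refine h2.congr (fun e => ?_)
    rw [slope_def_field, hh0, sub_zero, sub_zero]
  set x : ℝ → H := fun e => -(α e + ξ e • lam e) with hx
  have hαlim : Tendsto α (𝓝[≠] 0) (𝓝 0) := by
    have := (hαc.tendsto 0).mono_left (nhdsWithin_le_nhds (s := {0}ᶜ))
    rwa [hα0] at this
  have hxlim : Tendsto x (𝓝[≠] 0) (𝓝 0) := by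
    have h1 : Tendsto lam (𝓝[≠] 0) (𝓝 ω) := by
      have := (hlamc.tendsto 0).mono_left (nhdsWithin_le_nhds (s := {0}ᶜ))
      rwa [hlam0] at this
    have h3 := (hαlim.add (hξlim.smul h1)).neg
    rw [zero_smul, add_zero, neg_zero] at h3
    exact h3
  set s : ℝ → Fin n → H := fun e a => r e a - v a * α e with hs
  have hslim : ∀ a, Tendsto (fun e => s e a) (𝓝[≠] 0) (𝓝 0) := by
    intro a
    have h1 : Tendsto (fun e => r e a) (𝓝[≠] 0) (𝓝 0) := by
      have h0 : Continuous (fun e => r e a) := (continuous_apply a).comp hrc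
      have := (h0.tendsto 0).mono_left (nhdsWithin_le_nhds (s := {0}ᶜ))
      simpa only [hr0, Pi.zero_apply] using this
    have h2 := h1.sub (hαlim.const_mul (v a))
    simpa using h2
  have hvs : ∀ e, star v ⬝ᵥ s e = 0 := by
    intro e
    have h1 : s e = r e - (fun a => v a * α e) := rfl
    rw [h1, dotProduct_sub, dot_rmul, hαr, hvv, sub_self]
  have hsv : ∀ e, star (s e) ⬝ᵥ v = 0 := by
    intro e
    have h1 := congrArg star (hvs e)
    rw [star_zero, ← Matrix.star_dotProduct_star, star_star] at h1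
    exact h1
  set X : ℝ → Matrix (Fin n) (Fin n) H := fun e => Matrix.of fun a b =>
    ν⁻¹ • (-(s e a * star (v b) - v a * star (s e b)) + v a * x e * star (v b)) with hX
  set Y : ℝ → Matrix (Fin n) (Fin n) H := fun e => Matrix.of fun a b =>
    ν⁻¹ • (ξ e • (v a * star (v b))) with hY
  have hXlim : ∀ a b, Tendsto (fun e => X e a b) (𝓝[≠] 0) (𝓝 0) := by
    intro a b
    have h1 := (hslim a).mul_const (star (v b))
    have h2 : Tendsto (fun e => v a * star (s e b)) (𝓝[≠] 0) (𝓝 (v a * star 0)) :=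
      ((hslim b).star).const_mul (v a)
    have h3 := (hxlim.const_mul (v a)).mul_const (star (v b))
    have h4 := (((h1.sub h2).neg).add h3).const_smul ν⁻¹
    simp only [hX, Matrix.of_apply]
    simpa using h4
  have hYlim : ∀ a b, Tendsto (fun e => Y e a b) (𝓝[≠] 0) (𝓝 0) := by
    intro a b
    have h3 : Tendsto (fun e => ξ e • (v a * star (v b))) (𝓝[≠] 0) (𝓝 ((0 : ℝ) • (v a * star (v b)))) :=
      hξlim.smul_const _
    have h1 := h3.const_smul ν⁻¹
    simp only [hY, Matrix.of_apply]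
    simpa using h1
  have hev : ∀ᶠ e in 𝓝[≠] (0 : ℝ), (∀ a b, ‖X e a b‖ < ε₀) ∧ (∀ a b, ‖Y e a b‖ < ε₀) := by
    apply Eventually.and
    · rw [eventually_all]; intro a
      rw [eventually_all]; intro b
      have := (hXlim a b).norm
      rw [norm_zero] at this
      exact this.eventually (gt_mem_nhds hε₀)
    · rw [eventually_all]; intro a
      rw [eventually_all]; intro b
      have := (hYlim a b).norm
      rw [norm_zero] at this
      exact this.eventually (gt_mem_nhds hε₀)
  obtain ⟨e, ⟨heX, heY⟩, he0⟩ := (hev.and self_mem_nhdsWithin).exists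
  have he0' : e ≠ 0 := he0
  -- facts at e
  have hlamre : (lam e).re = e := by simp [hlam, hω]
  have hxre : (x e).re = 0 := by
    have hx1 : x e = -(α e + ξ e • lam e) := rfl
    rw [hx1, re_aux, hlamre, ← hhre]
    have hx2 : ξ e = -(h e / e) := rfl
    rw [hx2]
    field_simp
    ring
  have hxstar : star (x e) = -(x e) := Quaternion.star_eq_neg.2 hxre
  have hXskew : (X e)ᴴ = -X e := by
    ext1 a b
    rw [Matrix.conjTranspose_apply, Matrix.neg_apply]
    simp only [hX, Matrix.of_apply]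
    rw [Quaternion.star_smul, star_add, star_neg, star_sub, star_mul, star_mul, star_mul, star_mul,
      star_star, star_star, hxstar, ← smul_neg]
    congr 1
    simp only [neg_mul, mul_neg, mul_assoc]
    abel
  have hYherm : (Y e)ᴴ = Y e := by
    ext1 a b
    rw [Matrix.conjTranspose_apply]
    simp only [hY, Matrix.of_apply]
    rw [Quaternion.star_smul, Quaternion.star_smul, star_mul, star_star]
  have hXv : X e *ᵥ v = fun a => -(s e a) + v a * x e := by
    funext a
    simp only [Matrix.mulVec, dotProduct, hX, Matrix.of_apply]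
    have h1 : ∀ b, (ν⁻¹ • (-(s e a * star (v b) - v a * star (s e b)) + v a * x e * star (v b))) * v b
        = ν⁻¹ • (-(s e a * (star (v b) * v b) - v a * (star (s e b) * v b))
          + (v a * x e) * (star (v b) * v b)) := by
      intro b
      rw [smul_mul_assoc, add_mul, neg_mul, sub_mul]
      simp only [mul_assoc]
    rw [Finset.sum_congr rfl (fun b _ => h1 b), ← Finset.smul_sum, Finset.sum_add_distrib,
      Finset.sum_neg_distrib, Finset.sum_sub_distrib, ← Finset.mul_sum, ← Finset.mul_sum,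
      ← Finset.mul_sum]
    have h2 : ∑ b, star (v b) * v b = (ν : H) := hvv
    have h3 : ∑ b, star (s e b) * v b = 0 := hsv e
    rw [h2, h3, mul_zero, sub_zero, smul_add, smul_neg, ← (Quaternion.coe_commutes ν (s e a)),
      ← (Quaternion.coe_commutes ν (v a * x e)), Quaternion.coe_mul_eq_smul,
      Quaternion.coe_mul_eq_smul,
      smul_smul, smul_smul, inv_mul_cancel₀ hνpos.ne', one_smul, one_smul]
  have hYv : Y e *ᵥ (fun a => v a * lam e) = fun a => v a * (ξ e • lam e) := by
    funext a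
    simp only [Matrix.mulVec, dotProduct, hY, Matrix.of_apply]
    have h1 : ∀ b, (ν⁻¹ • (ξ e • (v a * star (v b)))) * (v b * lam e)
        = ν⁻¹ • (ξ e • (v a * (star (v b) * v b) * lam e)) := by
      intro b
      rw [smul_mul_assoc, smul_mul_assoc]
      simp only [mul_assoc]
    rw [Finset.sum_congr rfl (fun b _ => h1 b), ← Finset.smul_sum, ← Finset.smul_sum,
      ← Finset.sum_mul, ← Finset.mul_sum]
    have h2 : ∑ b, star (v b) * v b = (ν : H) := hvv
    rw [h2, ← (Quaternion.coe_commutes ν (v a)), Quaternion.coe_mul_eq_smul, smul_mul_assoc,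
      smul_comm (ξ e) ν, smul_smul, inv_mul_cancel₀ hνpos.ne', one_smul, mul_smul_comm]
  have hxlam : x e + ξ e • lam e = -(α e) := by
    simp only [hx]
    abel
  -- the perturbed coefficients
  set A' : ℕ → Matrix (Fin n) (Fin n) H := fun k =>
    if k = 0 then A 0 + X e else if k = 1 then A 1 + Y e else A k with hA'
  have hA'0 : A' 0 = A 0 + X e := by simp [hA']
  have hA'1 : A' 1 = A 1 + Y e := by simp [hA']
  have hA'2 : ∀ k, A' (k + 2) = A (k + 2) := by intro k; simp [hA']
  have hsym : OddSym ℓ A' := by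
    intro k hk
    rcases k with _ | _ | k
    · have h1 := (hA 0 hk).2 (by decide)
      refine ⟨fun h2 => absurd h2 (by decide), fun _ => ?_⟩
      rw [hA'0, Matrix.conjTranspose_add, h1, hXskew, neg_add]
    · have h1 := (hA 1 hk).1 (by decide)
      refine ⟨fun _ => ?_, fun h2 => absurd h2 (by decide)⟩
      rw [hA'1, Matrix.conjTranspose_add, h1, hYherm]
    · rw [hA'2]; exact hA (k + 2) hk
  have hclose : ∀ k, k ≤ ℓ → ∀ a b, ‖A' k a b - A k a b‖ < ε₀ := by
    intro k hk a b
    rcases k with _ | _ | k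
    · rw [hA'0, Matrix.add_apply, add_sub_cancel_left]; exact heX a b
    · rw [hA'1, Matrix.add_apply, add_sub_cancel_left]; exact heY a b
    · rw [hA'2, sub_self, norm_zero]; exact hε₀
  refine ⟨A', hsym, hA'2, hclose, ?_⟩
  refine unbounded_exp hv (l := lam e) (by rw [hlamre]; exact he0') ?_
  -- the equation
  obtain ⟨L, rfl⟩ : ∃ L, ℓ = L + 1 := ⟨ℓ - 1, by omega⟩
  have hre : r e = (∑ k ∈ Finset.range L, A (k + 2) *ᵥ (fun a => v a * lam e ^ (k + 2)))
      + A 1 *ᵥ (fun a => v a * lam e) + A 0 *ᵥ v := by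
    simp only [hr]
    rw [Finset.sum_range_succ', Finset.sum_range_succ']
    simp [pow_one]
  rw [Finset.sum_range_succ', Finset.sum_range_succ']
  have h1 : ∀ k, A' (k + 1 + 1) = A (k + 2) := fun k => hA'2 k
  simp only [h1]
  rw [show (0 : ℕ) + 1 = 1 from rfl, hA'0, hA'1, Matrix.add_mulVec, Matrix.add_mulVec]
  have h2 : (fun a => v a * lam e ^ 1) = fun a => v a * lam e := by funext a; rw [pow_one]
  have h3 : (fun a => v a * lam e ^ 0) = v := by funext a; rw [pow_zero, mul_one]
  rw [h2, h3, hXv, hYv]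
  funext a
  have h4 := congrFun hre a
  simp only [Pi.add_apply, Pi.zero_apply] at h4 ⊢
  have h5 : s e a = r e a - v a * α e := rfl
  have h6 : v a * x e + v a * (ξ e • lam e) = -(v a * α e) := by
    rw [← mul_add, hxlam, mul_neg]
  have h7 : v a * x e = -(v a * α e) - v a * (ξ e • lam e) := by
    rw [← h6]; abel
  rw [h7, h5, h4]
  abel


section comp2

variable {n L : ℕ} {A : ℕ → Matrix (Fin n) (Fin n) H}

/-- the form is definite on the eigenvectors -/
lemma definite_eig2
    (hnn : ∀ (μ : ℝ) (c : Fin (L + 1) × Fin n → H),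
      (companion (L + 1) A *ᵥ c = fun p => c p * om μ) → c ≠ 0 → qg A c ≠ 0) {μ : ℝ} {c d : Fin (L + 1) × Fin n → H}
    (hc : companion (L + 1) A *ᵥ c = fun p => c p * om μ) (hc0 : c ≠ 0)
    (hd : companion (L + 1) A *ᵥ d = fun p => d p * om μ)
    (hqc : qg A c < 0) (hqd : 0 < qg A d) : False := by
  have hcont := qg_path (A := A) c d
  obtain ⟨s, hs, hqs⟩ := intermediate_value_Icc (zero_le_one (α := ℝ)) hcont.continuousOn
    (show (0 : ℝ) ∈ Set.Icc _ _ from ⟨by simpa using hqc.le, by simpa using hqd.le⟩)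
  have heig : companion (L + 1) A *ᵥ ((1 - s) • c + s • d)
      = fun p => ((1 - s) • c + s • d) p * om μ := by
    rw [Matrix.mulVec_add, Matrix.mulVec_smul, Matrix.mulVec_smul, hc, hd]
    funext p
    simp only [Pi.add_apply, Pi.smul_apply, add_mul, smul_mul_assoc]
  by_cases h0 : (1 - s) • c + s • d = 0
  · -- then `d` is a multiple of `c`
    have hs0 : s ≠ 0 := by
      rintro rfl
      rw [sub_zero, one_smul, zero_smul, add_zero] at h0
      exact hc0 h0
    have h1 : d = (-((1 - s) / s)) • c := by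
      have h2 : s • d = -((1 - s) • c) := eq_neg_of_add_eq_zero_right h0
      have h3 : d = s⁻¹ • (s • d) := by rw [smul_smul, inv_mul_cancel₀ hs0, one_smul]
      rw [h3, h2, smul_neg, smul_smul, ← neg_smul]
      congr 1
      field_simp
    rw [h1, qg_smul] at hqd
    nlinarith [sq_nonneg (-((1 - s) / s))]
  · exact hnn _ _ heig h0 hqs


end comp2

/-- a bounded system without neutral eigenvectors has definite root subspaces -/
theorem definite_of_no_neutral (n L : ℕ) (A : ℕ → Matrix (Fin n) (Fin n) H)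
    (hA : OddSym (L + 1) A) (hinv : IsUnit (A (L + 1))) (hb : IsBoundedSystem (L + 1) A)
    (hnn : ∀ (μ : ℝ) (c : Fin (L + 1) × Fin n → H),
      (companion (L + 1) A *ᵥ c = fun p => c p * om μ) → c ≠ 0 → qg A c ≠ 0) (l : H)
    (hl : IsEigenvalue (companion (L + 1) A) l) :
    IsPositiveOn (gmat (L + 1) A) (rootSubspace (companion (L + 1) A) l) ∨
      IsNegativeOn (gmat (L + 1) A) (rootSubspace (companion (L + 1) A) l) := by
  set C := companion (L + 1) A with hCdef
  -- the eigenvalue has real part zero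
  obtain ⟨V, hV0, hV⟩ := hl
  have hre : l.re = 0 := by
    by_contra hre
    exact unbounded_exp (eigvec_ne hV hV0) hre (eigvec_eq hinv hV) hb
  have hn : 0 < n := by
    rcases Nat.eq_zero_or_pos n with h | h
    · subst h
      exfalso
      apply hV0
      funext p
      exact p.2.elim0
    · exact h
  have hcard : Fintype.card (Fin (L + 1) × Fin n) = (Fintype.card (Fin (L + 1) × Fin n) - 1) + 1 := by
    have : 0 < Fintype.card (Fin (L + 1) × Fin n) := by
      rw [Fintype.card_prod, Fintype.card_fin, Fintype.card_fin]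
      exact Nat.mul_pos (by omega) hn
    omega
  set μ : ℝ := ‖l‖ with hμdef
  have hq0 : qg A (0 : Fin (L + 1) × Fin n → H) = 0 := by
    have := qg_smul (A := A) (0 : ℝ) (0 : Fin (L + 1) × Fin n → H)
    rw [smul_zero] at this
    rw [this]; ring
  -- the form is real
  have hreal : ∀ W : Fin (L + 1) × Fin n → H,
      star W ⬝ᵥ (gmat (L + 1) A *ᵥ W) = ((qg A W : ℝ) : H) := by
    intro W
    have h1 : star (star W ⬝ᵥ (gmat (L + 1) A *ᵥ W)) = star W ⬝ᵥ (gmat (L + 1) A *ᵥ W) := by
      rw [← Matrix.star_dotProduct_star, star_star, Matrix.star_mulVec, gmat_herm hA,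
        Matrix.dotProduct_mulVec]
    exact Quaternion.star_eq_self.1 h1
  -- eigenvectors from vectors of the root subspace
  have hdec : ∀ W ∈ rootSubspace C l, W ≠ 0 → ∃ a b : Fin (L + 1) × Fin n → H,
      C *ᵥ a = (fun p => a p * om μ) ∧ C *ᵥ b = (fun p => b p * om μ) ∧ (a ≠ 0 ∨ b ≠ 0) ∧
      qg A W = qg A a + qg A b := by
    by_cases hl0 : l = 0
    · -- the eigenvalue zero
      intro W hW hW0
      have hroot : rootPoly C l = C := by
        unfold rootPoly
        rw [if_pos (by rw [hl0]; rfl), hre, zero_smul, sub_zero]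
      have hW' : C ^ (Fintype.card (Fin (L + 1) × Fin n)) *ᵥ W = 0 := by
        have h0 : (rootPoly C l) ^ (Fintype.card (Fin (L + 1) × Fin n)) *ᵥ W = 0 := hW
        rwa [hroot] at h0
      have hstep : ∀ k : ℕ, C ^ (k + 1) *ᵥ W = 0 → C *ᵥ W = 0 := by
        intro k
        induction k with
        | zero => intro h; rwa [zero_add, pow_one] at h
        | succ k ih =>
          intro h
          apply ih
          rw [pow_succ', ← Matrix.mulVec_mulVec]
          apply kernel_zero hinv hb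
          rw [← hCdef, Matrix.mulVec_mulVec, Matrix.mulVec_mulVec, ← sq, ← pow_add,
            show 2 + k = k + 1 + 1 by ring]
          exact h
      rw [hcard] at hW'
      have h1 := hstep _ hW'
      have hom : om μ = 0 := by
        rw [hμdef, hl0, norm_zero]
        rfl
      refine ⟨W, 0, ?_, ?_, Or.inl hW0, ?_⟩
      · rw [h1, hom]; funext p; simp
      · rw [Matrix.mulVec_zero]; funext p; simp
      · rw [hq0, add_zero]
    · -- a nonzero purely imaginary eigenvalue
      have hμ : 0 < μ := norm_pos_iff.2 hl0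
      have hnotreal : ¬ l = (l.re : H) := by
        rw [hre]
        intro h
        exact hl0 (h.trans Quaternion.coe_zero)
      have hroot : rootPoly C l = C ^ 2 + (μ ^ 2) • 1 := by
        unfold rootPoly
        rw [if_neg hnotreal, hre, mul_zero, zero_smul, sub_zero]
      have hker : ∀ W ∈ rootSubspace C l, C *ᵥ (C *ᵥ W) = -((μ ^ 2) • W) := by
        intro W hW
        have hW' : (C ^ 2 + (μ ^ 2) • 1) ^ (Fintype.card (Fin (L + 1) × Fin n)) *ᵥ W = 0 := by
          rw [← hroot]; exact hW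
        have hstep : ∀ k : ℕ, (C ^ 2 + (μ ^ 2) • 1) ^ (k + 1) *ᵥ W = 0 →
            (C ^ 2 + (μ ^ 2) • 1) *ᵥ W = 0 := by
          intro k
          induction k with
          | zero => intro h; rwa [zero_add, pow_one] at h
          | succ k ih =>
            intro h
            apply ih
            rw [pow_succ', ← Matrix.mulVec_mulVec]
            apply kernel_sq hinv hb hμ
            rw [← hCdef, Matrix.mulVec_mulVec, Matrix.mulVec_mulVec, ← sq, ← pow_add,
              show 2 + k = k + 1 + 1 by ring]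
            exact h
        rw [hcard] at hW'
        have h1 := hstep _ hW'
        rw [Matrix.add_mulVec, sq C, ← Matrix.mulVec_mulVec, Matrix.smul_mulVec,
          Matrix.one_mulVec] at h1
        exact eq_neg_of_add_eq_zero_left h1
      intro W hW hW0
      obtain ⟨a, b, ha, hb', hab⟩ := decompose C hμ W (hker W hW)
      refine ⟨a, b, ha, hb', ?_, ?_⟩
      · by_contra hcon
        push Not at hcon
        apply hW0
        rw [hab, hcon.1, hcon.2]
        funext p; simp
      · rw [hab]; exact qg_decompose hA hinv hμ ha hb'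
  have hneg : ∀ W ∈ rootSubspace C l, W ≠ 0 → qg A W ≤ 0 → ∃ c : Fin (L + 1) × Fin n → H,
      C *ᵥ c = (fun p => c p * om μ) ∧ c ≠ 0 ∧ qg A c < 0 := by
    intro W hW hW0 hle
    obtain ⟨a, b, ha, hb', hab, hq⟩ := hdec W hW hW0
    by_cases ha0 : a = 0
    · have hb0 : b ≠ 0 := by rcases hab with h | h; exact absurd ha0 h; exact h
      rw [ha0, hq0, zero_add] at hq
      exact ⟨b, hb', hb0, lt_of_le_of_ne (hq ▸ hle) (hnn _ _ hb' hb0)⟩
    · by_cases hb0 : b = 0
      · rw [hb0, hq0, add_zero] at hq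
        exact ⟨a, ha, ha0, lt_of_le_of_ne (hq ▸ hle) (hnn _ _ ha ha0)⟩
      · by_cases hqa : qg A a ≤ 0
        · exact ⟨a, ha, ha0, lt_of_le_of_ne hqa (hnn _ _ ha ha0)⟩
        · push Not at hqa
          exact ⟨b, hb', hb0, by linarith⟩
  have hpos : ∀ W ∈ rootSubspace C l, W ≠ 0 → 0 ≤ qg A W → ∃ c : Fin (L + 1) × Fin n → H,
      C *ᵥ c = (fun p => c p * om μ) ∧ c ≠ 0 ∧ 0 < qg A c := by
    intro W hW hW0 hle
    obtain ⟨a, b, ha, hb', hab, hq⟩ := hdec W hW hW0
    by_cases ha0 : a = 0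
    · have hb0 : b ≠ 0 := by rcases hab with h | h; exact absurd ha0 h; exact h
      rw [ha0, hq0, zero_add] at hq
      exact ⟨b, hb', hb0, lt_of_le_of_ne (hq ▸ hle) (hnn _ _ hb' hb0).symm⟩
    · by_cases hb0 : b = 0
      · rw [hb0, hq0, add_zero] at hq
        exact ⟨a, ha, ha0, lt_of_le_of_ne (hq ▸ hle) (hnn _ _ ha ha0).symm⟩
      · by_cases hqa : 0 ≤ qg A a
        · exact ⟨a, ha, ha0, lt_of_le_of_ne hqa (hnn _ _ ha ha0).symm⟩
        · push Not at hqa
          exact ⟨b, hb', hb0, by linarith⟩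
  by_cases hall : ∀ W ∈ rootSubspace C l, W ≠ 0 → 0 < qg A W
  · left
    intro W hW hW0
    exact ⟨qg A W, hall W hW hW0, hreal W⟩
  · right
    push Not at hall
    obtain ⟨W1, hW1, hW10, hle1⟩ := hall
    obtain ⟨c, hc, hc0, hqc⟩ := hneg W1 hW1 hW10 hle1
    intro W hW hW0
    refine ⟨qg A W, ?_, hreal W⟩
    by_contra hcon
    push Not at hcon
    obtain ⟨d, hd, -, hqd⟩ := hpos W hW hW0 hcon
    exact definite_eig2 hnn hc hc0 hd hqc hqd


/-- stably bounded among the systems with the symmetries of `OddSym` and invertible leading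
coefficient -/
def StabInv {n : ℕ} (ℓ : ℕ) (A : ℕ → Matrix (Fin n) (Fin n) H) : Prop :=
  ∃ ε : ℝ, 0 < ε ∧ ∀ A' : ℕ → Matrix (Fin n) (Fin n) H, OddSym ℓ A' → IsUnit (A' ℓ) →
    (∀ k, k ≤ ℓ → ∀ a b, ‖A' k a b - A k a b‖ < ε) → IsBoundedSystem ℓ A'

theorem main2 (n ℓ : ℕ) (hℓ : 2 ≤ ℓ) (A : ℕ → Matrix (Fin n) (Fin n) H)
    (hA : OddSym ℓ A) (hinv : IsUnit (A ℓ)) (hst : StabInv ℓ A) (l : H)
    (hl : IsEigenvalue (companion ℓ A) l) :
    IsPositiveOn (gmat ℓ A) (rootSubspace (companion ℓ A) l) ∨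
      IsNegativeOn (gmat ℓ A) (rootSubspace (companion ℓ A) l) := by
  obtain ⟨L, rfl⟩ : ∃ L, ℓ = L + 1 + 1 := ⟨ℓ - 2, by omega⟩
  obtain ⟨ε, hε, h⟩ := hst
  refine definite_of_no_neutral n (L + 1) A hA hinv
    (h A hA hinv (fun k _ a b => by rw [sub_self, norm_zero]; exact hε)) ?_ l hl
  intro μ c hc hc0 hq
  rw [qg_eigvec hc] at hq
  obtain ⟨A', hA', hA'2, hclose, hub⟩ := exists_unbounded (by omega) hA (eigvec_ne hc hc0) (om_re μ)
    (eigvec_eq hinv hc) hq ε hε
  refine hub (h A' hA' ?_ hclose)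
  have h2 : A' (L + 1 + 1) = A (L + 1 + 1) := hA'2 L
  rw [h2]
  exact hinv

end Pool.Agent.Q260.QH
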