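import Pool.Agent.H636R3.QMain

set_option autoImplicit false

open Matrix Filter Topology

namespace Pool.Agent.Q260.QH

open Pool.Agent.H636R3.Quat

/-- The coefficients `A 0, …, A ℓ` have the symmetries of the gyroscopic-type system: `A k` is
hermitian for odd `k` and skewhermitian for even `k`. -/
def OddSym {n : ℕ} (ℓ : ℕ) (A : ℕ → Matrix (Fin n) (Fin n) H) : Prop :=
  ∀ k, k ≤ ℓ → (Odd k → (A k)ᴴ = A k) ∧ (Even k → (A k)ᴴ = -A k)

/-- The system is stably bounded: all systems with the same symmetries (`A' k` hermitian for odd `k`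
and skewhermitian for even `k`) and nearby coefficients are bounded. -/
def StablyBounded {n : ℕ} (ℓ : ℕ) (A : ℕ → Matrix (Fin n) (Fin n) H) : Prop :=
  ∃ ε : ℝ, 0 < ε ∧ ∀ A' : ℕ → Matrix (Fin n) (Fin n) H, OddSym ℓ A' →
    (∀ k, k ≤ ℓ → ∀ a b, ‖A' k a b - A k a b‖ < ε) → IsBoundedSystem ℓ A'

lemma re_aux (a b : H) (t : ℝ) : (-(a + t • b)).re = -(a.re + t * b.re) := by
  rw [Quaternion.re_neg, Quaternion.re_add, Quaternion.re_smul, smul_eq_mul]

theorem not_stable_of_neutral {n ℓ : ℕ} (hℓ : 1 ≤ ℓ) {A : ℕ → Matrix (Fin n) (Fin n) H}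
    (hA : OddSym ℓ A) {v : Fin n → H} (hv : v ≠ 0) {ω : H} (hω : ω.re = 0)
    (heq : ∑ k ∈ Finset.range (ℓ + 1), A k *ᵥ (fun a => v a * ω ^ k) = 0)
    (hneu : ∑ k ∈ Finset.range (ℓ + 1), (k : ℝ) * (wv A v k * ω ^ (k - 1)).re = 0) :
    ¬ StablyBounded ℓ A := by
  rintro ⟨ε₀, hε₀, hstab⟩
  -- norm of v
  set ν : ℝ := ∑ a, ‖v a‖ ^ 2 with hν
  have hνpos : 0 < ν := by
    obtain ⟨a, ha⟩ := Function.ne_iff.1 hv
    have ha' : 0 < ‖v a‖ := norm_pos_iff.2 ha
    apply Finset.sum_pos' (fun i _ => by positivity) ⟨a, Finset.mem_univ a, by positivity⟩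
  have hvv : star v ⬝ᵥ v = (ν : H) := by
    have hcs : ((∑ a, ‖v a‖ ^ 2 : ℝ) : H) = ∑ a, ((‖v a‖ ^ 2 : ℝ) : H) :=
      map_sum (algebraMap ℝ (Quaternion ℝ)) (fun a => ‖v a‖ ^ 2) Finset.univ
    rw [hν, dotProduct, hcs]
    apply Finset.sum_congr rfl
    intro a _
    rw [Pi.star_apply, Quaternion.star_mul_self, Quaternion.normSq_eq_norm_mul_self, sq]
  set lam : ℝ → H := fun e => ω + (e : H) with hlam
  set r : ℝ → Fin n → H := fun e => ∑ k ∈ Finset.range (ℓ + 1), A k *ᵥ (fun a => v a * lam e ^ k)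
    with hr
  set α : ℝ → H := fun e => ν⁻¹ • ∑ k ∈ Finset.range (ℓ + 1), wv A v k * lam e ^ k with hα
  have hαr : ∀ e, star v ⬝ᵥ r e = (ν : H) * α e := by
    intro e
    have h1 : ∀ k, star v ⬝ᵥ (A k *ᵥ (fun a => v a * lam e ^ k)) = wv A v k * lam e ^ k := by
      intro k
      rw [mulVec_rmul, dot_rmul]; rfl
    simp only [hr, hα]
    rw [dotProduct_sum, Finset.sum_congr rfl (fun k _ => h1 k)]
    rw [mul_smul_comm, Quaternion.coe_mul_eq_smul, smul_smul, inv_mul_cancel₀ hνpos.ne', one_smul]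
  have hlamc : Continuous lam := by
    simp only [hlam]
    exact continuous_const.add Quaternion.continuous_coe
  have hrc : Continuous r := by
    simp only [hr]
    refine continuous_finsetSum _ (fun k _ => ?_)
    refine continuous_pi (fun a => ?_)
    simp only [Matrix.mulVec, dotProduct]
    fun_prop
  have hαc : Continuous α := by
    simp only [hα]
    fun_prop
  have hlam0 : lam 0 = ω := by simp [hlam]
  have hr0 : r 0 = 0 := by simp only [hr, hlam0]; exact heq
  have hα0 : α 0 = 0 := by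
    have h1 := hαr 0
    rw [hr0, dotProduct_zero] at h1
    rcases mul_eq_zero.1 h1.symm with h2 | h2
    · exfalso
      have h3 : ((ν : ℝ) : H) = ((0 : ℝ) : H) := by simpa using h2
      exact hνpos.ne' (Quaternion.coe_injective h3)
    · exact h2
  -- the function h, the real part of α
  set h : ℝ → ℝ := fun e => inner ℝ (α e) (1 : H) with hh
  have hhre : ∀ e, h e = (α e).re := by
    intro e
    simp only [hh]
    rw [Quaternion.inner_def, star_one, mul_one]
  have hαder : HasDerivAt α (ν⁻¹ • ∑ k ∈ Finset.range (ℓ + 1), wv A v k * ((k : ℝ) • ω ^ (k - 1))) 0 := by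
    have hs0 : HasDerivAt (fun e => ∑ k ∈ Finset.range (ℓ + 1), wv A v k * lam e ^ k)
        (∑ k ∈ Finset.range (ℓ + 1), wv A v k * ((k : ℝ) • ω ^ (k - 1))) 0 := by
      apply HasDerivAt.fun_sum
      intro k _
      have h1 := (hasDerivAt_shift_pow ω k 0).const_mul (wv A v k)
      have h2 : ω + ((0 : ℝ) : H) = ω := by simp
      rw [h2] at h1
      exact h1
    exact hs0.const_smul ν⁻¹
  have hhder : HasDerivAt h 0 0 := by
    have h1 := hαder.inner ℝ (hasDerivAt_const (0 : ℝ) (1 : H))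
    rw [inner_zero_right, zero_add] at h1
    have h2 : inner ℝ (ν⁻¹ • ∑ k ∈ Finset.range (ℓ + 1), wv A v k * ((k : ℝ) • ω ^ (k - 1))) (1 : H)
        = 0 := by
      rw [inner_smul_left, Quaternion.inner_def, star_one, mul_one, re_sum]
      have h3 : ∀ k, (wv A v k * ((k : ℝ) • ω ^ (k - 1))).re
          = (k : ℝ) * (wv A v k * ω ^ (k - 1)).re := by
        intro k
        rw [mul_smul_comm, Quaternion.re_smul, smul_eq_mul]
      rw [Finset.sum_congr rfl (fun k _ => h3 k), hneu]
      simp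
    rw [h2] at h1
    exact h1
  have hh0 : h 0 = 0 := by simp only [hh]; rw [hα0, inner_zero_left]
  set ξ : ℝ → ℝ := fun e => -(h e / e) with hξ
  have hξlim : Tendsto ξ (𝓝[≠] 0) (𝓝 0) := by
    have h1 := hasDerivAt_iff_tendsto_slope.1 hhder
    have h2 : Tendsto (fun e => -(slope h 0 e)) (𝓝[≠] 0) (𝓝 (-0)) := h1.neg
    rw [neg_zero] at h2
    refine h2.congr (fun e => ?_)
    rw [slope_def_field, hh0, sub_zero, sub_zero]
  set x : ℝ → H := fun e => -(α e + ξ e • lam e) with hx
  have hαlim : Tendsto α (𝓝[≠] 0) (𝓝 0) := by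
    have := (hαc.tendsto 0).mono_left (nhdsWithin_le_nhds (s := {0}ᶜ))
    rwa [hα0] at this
  have hxlim : Tendsto x (𝓝[≠] 0) (𝓝 0) := by
    have h1 : Tendsto lam (𝓝[≠] 0) (𝓝 ω) := by
      have := (hlamc.tendsto 0).mono_left (nhdsWithin_le_nhds (s := {0}ᶜ))
      rwa [hlam0] at this
    have h3 := (hαlim.add (hξlim.smul h1)).neg
    rw [zero_smul, add_zero, neg_zero] at h3
    exact h3
  set s : ℝ → Fin n → H := fun e a => r e a - v a * α e with hs
  have hslim : ∀ a, Tendsto (fun e => s e a) (𝓝[≠] 0) (𝓝 0) := by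
    intro a
    have h1 : Tendsto (fun e => r e a) (𝓝[≠] 0) (𝓝 0) := by
      have h0 : Continuous (fun e => r e a) := (continuous_apply a).comp hrc
      have := (h0.tendsto 0).mono_left (nhdsWithin_le_nhds (s := {0}ᶜ))
      simpa only [hr0, Pi.zero_apply] using this
    have h2 := h1.sub (hαlim.const_mul (v a))
    simpa using h2
  have hvs : ∀ e, star v ⬝ᵥ s e = 0 := by
    intro e
    have h1 : s e = r e - (fun a => v a * α e) := rfl
    rw [h1, dotProduct_sub, dot_rmul, hαr, hvv, sub_self]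
  have hsv : ∀ e, star (s e) ⬝ᵥ v = 0 := by
    intro e
    have h1 := congrArg star (hvs e)
    rw [star_zero, ← Matrix.star_dotProduct_star, star_star] at h1
    exact h1
  set X : ℝ → Matrix (Fin n) (Fin n) H := fun e => Matrix.of fun a b =>
    ν⁻¹ • (-(s e a * star (v b) - v a * star (s e b)) + v a * x e * star (v b)) with hX
  set Y : ℝ → Matrix (Fin n) (Fin n) H := fun e => Matrix.of fun a b =>
    ν⁻¹ • (ξ e • (v a * star (v b))) with hY
  have hXlim : ∀ a b, Tendsto (fun e => X e a b) (𝓝[≠] 0) (𝓝 0) := by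
    intro a b
    have h1 := (hslim a).mul_const (star (v b))
    have h2 : Tendsto (fun e => v a * star (s e b)) (𝓝[≠] 0) (𝓝 (v a * star 0)) :=
      ((hslim b).star).const_mul (v a)
    have h3 := (hxlim.const_mul (v a)).mul_const (star (v b))
    have h4 := (((h1.sub h2).neg).add h3).const_smul ν⁻¹
    simp only [hX, Matrix.of_apply]
    simpa using h4
  have hYlim : ∀ a b, Tendsto (fun e => Y e a b) (𝓝[≠] 0) (𝓝 0) := by
    intro a b
    have h3 : Tendsto (fun e => ξ e • (v a * star (v b))) (𝓝[≠] 0) (𝓝 ((0 : ℝ) • (v a * star (v b)))) :=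
      hξlim.smul_const _
    have h1 := h3.const_smul ν⁻¹
    simp only [hY, Matrix.of_apply]
    simpa using h1
  have hev : ∀ᶠ e in 𝓝[≠] (0 : ℝ), (∀ a b, ‖X e a b‖ < ε₀) ∧ (∀ a b, ‖Y e a b‖ < ε₀) := by
    apply Eventually.and
    · rw [eventually_all]; intro a
      rw [eventually_all]; intro b
      have := (hXlim a b).norm
      rw [norm_zero] at this
      exact this.eventually (gt_mem_nhds hε₀)
    · rw [eventually_all]; intro a
      rw [eventually_all]; intro b
      have := (hYlim a b).norm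
      rw [norm_zero] at this
      exact this.eventually (gt_mem_nhds hε₀)
  obtain ⟨e, ⟨heX, heY⟩, he0⟩ := (hev.and self_mem_nhdsWithin).exists
  have he0' : e ≠ 0 := he0
  -- facts at e
  have hlamre : (lam e).re = e := by simp [hlam, hω]
  have hxre : (x e).re = 0 := by
    have hx1 : x e = -(α e + ξ e • lam e) := rfl
    rw [hx1, re_aux, hlamre, ← hhre]
    have hx2 : ξ e = -(h e / e) := rfl
    rw [hx2]
    field_simp
    ring
  have hxstar : star (x e) = -(x e) := Quaternion.star_eq_neg.2 hxre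
  have hXskew : (X e)ᴴ = -X e := by
    ext1 a b
    rw [Matrix.conjTranspose_apply, Matrix.neg_apply]
    simp only [hX, Matrix.of_apply]
    rw [Quaternion.star_smul, star_add, star_neg, star_sub, star_mul, star_mul, star_mul, star_mul,
      star_star, star_star, hxstar, ← smul_neg]
    congr 1
    simp only [neg_mul, mul_neg, mul_assoc]
    abel
  have hYherm : (Y e)ᴴ = Y e := by
    ext1 a b
    rw [Matrix.conjTranspose_apply]
    simp only [hY, Matrix.of_apply]
    rw [Quaternion.star_smul, Quaternion.star_smul, star_mul, star_star]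
  have hXv : X e *ᵥ v = fun a => -(s e a) + v a * x e := by
    funext a
    simp only [Matrix.mulVec, dotProduct, hX, Matrix.of_apply]
    have h1 : ∀ b, (ν⁻¹ • (-(s e a * star (v b) - v a * star (s e b)) + v a * x e * star (v b))) * v b
        = ν⁻¹ • (-(s e a * (star (v b) * v b) - v a * (star (s e b) * v b))
          + (v a * x e) * (star (v b) * v b)) := by
      intro b
      rw [smul_mul_assoc, add_mul, neg_mul, sub_mul]
      simp only [mul_assoc]
    rw [Finset.sum_congr rfl (fun b _ => h1 b), ← Finset.smul_sum, Finset.sum_add_distrib,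
      Finset.sum_neg_distrib, Finset.sum_sub_distrib, ← Finset.mul_sum, ← Finset.mul_sum,
      ← Finset.mul_sum]
    have h2 : ∑ b, star (v b) * v b = (ν : H) := hvv
    have h3 : ∑ b, star (s e b) * v b = 0 := hsv e
    rw [h2, h3, mul_zero, sub_zero, smul_add, smul_neg, ← (Quaternion.coe_commutes ν (s e a)),
      ← (Quaternion.coe_commutes ν (v a * x e)), Quaternion.coe_mul_eq_smul,
      Quaternion.coe_mul_eq_smul,
      smul_smul, smul_smul, inv_mul_cancel₀ hνpos.ne', one_smul, one_smul]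
  have hYv : Y e *ᵥ (fun a => v a * lam e) = fun a => v a * (ξ e • lam e) := by
    funext a
    simp only [Matrix.mulVec, dotProduct, hY, Matrix.of_apply]
    have h1 : ∀ b, (ν⁻¹ • (ξ e • (v a * star (v b)))) * (v b * lam e)
        = ν⁻¹ • (ξ e • (v a * (star (v b) * v b) * lam e)) := by
      intro b
      rw [smul_mul_assoc, smul_mul_assoc]
      simp only [mul_assoc]
    rw [Finset.sum_congr rfl (fun b _ => h1 b), ← Finset.smul_sum, ← Finset.smul_sum,
      ← Finset.sum_mul, ← Finset.mul_sum]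
    have h2 : ∑ b, star (v b) * v b = (ν : H) := hvv
    rw [h2, ← (Quaternion.coe_commutes ν (v a)), Quaternion.coe_mul_eq_smul, smul_mul_assoc,
      smul_comm (ξ e) ν, smul_smul, inv_mul_cancel₀ hνpos.ne', one_smul, mul_smul_comm]
  have hxlam : x e + ξ e • lam e = -(α e) := by
    simp only [hx]
    abel
  -- the perturbed coefficients
  set A' : ℕ → Matrix (Fin n) (Fin n) H := fun k =>
    if k = 0 then A 0 + X e else if k = 1 then A 1 + Y e else A k with hA'
  have hA'0 : A' 0 = A 0 + X e := by simp [hA']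
  have hA'1 : A' 1 = A 1 + Y e := by simp [hA']
  have hA'2 : ∀ k, A' (k + 2) = A (k + 2) := by intro k; simp [hA']
  have hsym : OddSym ℓ A' := by
    intro k hk
    rcases k with _ | _ | k
    · have h1 := (hA 0 hk).2 (by decide)
      refine ⟨fun h2 => absurd h2 (by decide), fun _ => ?_⟩
      rw [hA'0, Matrix.conjTranspose_add, h1, hXskew, neg_add]
    · have h1 := (hA 1 hk).1 (by decide)
      refine ⟨fun _ => ?_, fun h2 => absurd h2 (by decide)⟩
      rw [hA'1, Matrix.conjTranspose_add, h1, hYherm]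
    · rw [hA'2]; exact hA (k + 2) hk
  have hclose : ∀ k, k ≤ ℓ → ∀ a b, ‖A' k a b - A k a b‖ < ε₀ := by
    intro k hk a b
    rcases k with _ | _ | k
    · rw [hA'0, Matrix.add_apply, add_sub_cancel_left]; exact heX a b
    · rw [hA'1, Matrix.add_apply, add_sub_cancel_left]; exact heY a b
    · rw [hA'2, sub_self, norm_zero]; exact hε₀
  have hbd := hstab A' hsym hclose
  refine unbounded_exp hv (l := lam e) (by rw [hlamre]; exact he0') ?_ hbd
  -- the equation
  obtain ⟨L, rfl⟩ : ∃ L, ℓ = L + 1 := ⟨ℓ - 1, by omega⟩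
  have hre : r e = (∑ k ∈ Finset.range L, A (k + 2) *ᵥ (fun a => v a * lam e ^ (k + 2)))
      + A 1 *ᵥ (fun a => v a * lam e) + A 0 *ᵥ v := by
    simp only [hr]
    rw [Finset.sum_range_succ', Finset.sum_range_succ']
    simp [pow_one]
  rw [Finset.sum_range_succ', Finset.sum_range_succ']
  have h1 : ∀ k, A' (k + 1 + 1) = A (k + 2) := fun k => hA'2 k
  simp only [h1]
  rw [show (0 : ℕ) + 1 = 1 from rfl, hA'0, hA'1, Matrix.add_mulVec, Matrix.add_mulVec]
  have h2 : (fun a => v a * lam e ^ 1) = fun a => v a * lam e := by funext a; rw [pow_one]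
  have h3 : (fun a => v a * lam e ^ 0) = v := by funext a; rw [pow_zero, mul_one]
  rw [h2, h3, hXv, hYv]
  funext a
  have h4 := congrFun hre a
  simp only [Pi.add_apply, Pi.zero_apply] at h4 ⊢
  have h5 : s e a = r e a - v a * α e := rfl
  have h6 : v a * x e + v a * (ξ e • lam e) = -(v a * α e) := by
    rw [← mul_add, hxlam, mul_neg]
  have h7 : v a * x e = -(v a * α e) - v a * (ξ e • lam e) := by
    rw [← h6]; abel
  rw [h7, h5, h4]
  abel

end Pool.Agent.Q260.QH
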