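import Pool.Agent.Q260.QH.Main2

set_option autoImplicit false

open Matrix Filter Topology

namespace Pool.Agent.Q260.QH

open Pool.Agent.H636R3.Quat

/-- `X_φ`: the transpose of `X` with `φ` applied entrywise -/
def phiT {m k : Type} (φ : H → H) (X : Matrix m k H) : Matrix k m H := (X.map φ)ᵀ

/-- Hypothesis (B): `A ℓ` is invertible, and for `k ≤ ℓ` the matrix `A k` is `φ`-hermitian when `k`
is even and `φ`-skewhermitian when `k` is odd. -/
def HypB (φ : H → H) {n : ℕ} (ℓ : ℕ) (A : ℕ → Matrix (Fin n) (Fin n) H) : Prop :=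
  IsUnit (A ℓ) ∧ ∀ k, k ≤ ℓ → (Even k → phiT φ (A k) = A k) ∧ (Odd k → phiT φ (A k) = -A k)

/-- The system is stably bounded: for some `ε > 0` every system obeying (B) all of whose
coefficients have entries closer than `ε` to those of `A` is bounded. -/
def PhiStablyBounded (φ : H → H) {n : ℕ} (ℓ : ℕ) (A : ℕ → Matrix (Fin n) (Fin n) H) : Prop :=
  ∃ ε : ℝ, 0 < ε ∧ ∀ A' : ℕ → Matrix (Fin n) (Fin n) H, HypB φ ℓ A' →
    (∀ k, k ≤ ℓ → ∀ a b, ‖A' k a b - A k a b‖ < ε) → IsBoundedSystem ℓ A'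

/-- `(G, φ)`-definite: `x_φ G x` vanishes for no nonzero `x` in `S`. -/
def IsPhiDefinite (φ : H → H) {ι : Type} [Fintype ι] (G : Matrix ι ι H) (S : Set (ι → H)) : Prop :=
  ∀ x ∈ S, x ≠ 0 → (fun i => φ (x i)) ⬝ᵥ (G *ᵥ x) ≠ 0

section transfer

variable {φ : H → H} {β : H} {n : ℕ}

/-- left multiplication of all coefficients by `β` -/
noncomputable def lm (β : H) (A : ℕ → Matrix (Fin n) (Fin n) H) : ℕ → Matrix (Fin n) (Fin n) H :=
  fun k => Matrix.of fun a b => β * A k a b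

lemma lm_mulVec (β : H) (A : ℕ → Matrix (Fin n) (Fin n) H) (k : ℕ) (v : Fin n → H) :
    lm β A k *ᵥ v = fun a => β * (A k *ᵥ v) a := by
  funext a
  simp only [lm, Matrix.mulVec, dotProduct, Matrix.of_apply, Finset.mul_sum, mul_assoc]

lemma lm_lm {β γ : H} (h : β * γ = 1) (A : ℕ → Matrix (Fin n) (Fin n) H) : lm β (lm γ A) = A := by
  funext k
  ext1 a b
  simp only [lm, Matrix.of_apply]
  rw [← mul_assoc, h, one_mul]

lemma isSolution_lm {β : H} {ℓ : ℕ} {A : ℕ → Matrix (Fin n) (Fin n) H} (hβ0 : β ≠ 0)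
    (x : ℝ → Fin n → H) : IsSolution ℓ (lm β A) x ↔ IsSolution ℓ A x := by
  have h1 : ∀ t, ∑ k ∈ Finset.range (ℓ + 1), lm β A k *ᵥ (iteratedDeriv k x t)
      = fun a => β * (∑ k ∈ Finset.range (ℓ + 1), A k *ᵥ (iteratedDeriv k x t)) a := by
    intro t
    funext a
    rw [Finset.sum_apply, Finset.sum_apply, Finset.mul_sum]
    apply Finset.sum_congr rfl
    intro k _
    rw [lm_mulVec]
  constructor
  · rintro ⟨hc, h⟩
    refine ⟨hc, fun t => ?_⟩
    have h2 := h t
    rw [h1 t] at h2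
    funext a
    have h3 := congrFun h2 a
    rw [Pi.zero_apply] at h3 ⊢
    exact (mul_eq_zero.1 h3).resolve_left hβ0
  · rintro ⟨hc, h⟩
    refine ⟨hc, fun t => ?_⟩
    rw [h1 t, h t]
    funext a
    rw [Pi.zero_apply, mul_zero]

lemma isBounded_lm {β : H} {ℓ : ℕ} {A : ℕ → Matrix (Fin n) (Fin n) H} (hβ0 : β ≠ 0) :
    IsBoundedSystem ℓ (lm β A) ↔ IsBoundedSystem ℓ A := by
  constructor
  · intro h x hx
    exact h x ((isSolution_lm hβ0 x).2 hx)
  · intro h x hx
    exact h x ((isSolution_lm hβ0 x).1 hx)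

/-- the scalar matrix `β` -/
noncomputable def sc (n : ℕ) (β : H) : Matrix (Fin n) (Fin n) H := Matrix.diagonal (fun _ => β)

lemma sc_mul (β : H) (M : Matrix (Fin n) (Fin n) H) : sc n β * M = Matrix.of fun a b => β * M a b := by
  ext1 a b
  rw [sc, Matrix.diagonal_mul, Matrix.of_apply]

lemma sc_unit {β γ : H} (h : β * γ = 1) (h' : γ * β = 1) : IsUnit (sc n β) := by
  refine ⟨⟨sc n β, sc n γ, ?_, ?_⟩, rfl⟩
  · rw [sc, sc, Matrix.diagonal_mul_diagonal]
    simp only [h, Matrix.diagonal_one]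
  · rw [sc, sc, Matrix.diagonal_mul_diagonal]
    simp only [h', Matrix.diagonal_one]

lemma lm_eq (β : H) (A : ℕ → Matrix (Fin n) (Fin n) H) (k : ℕ) : lm β A k = sc n β * A k := by
  rw [sc_mul]; rfl

lemma inverse_lm {β : H} (hU : IsUnit (sc n β)) {A : ℕ → Matrix (Fin n) (Fin n) H} {ℓ : ℕ}
    (hA : IsUnit (A ℓ)) (k : ℕ) :
    Ring.inverse (lm β A ℓ) * lm β A k = Ring.inverse (A ℓ) * A k := by
  obtain ⟨u, hu⟩ := hU
  obtain ⟨w, hw⟩ := hA
  rw [lm_eq, lm_eq, ← hu, ← hw, ← Units.val_mul, Ring.inverse_unit, Ring.inverse_unit, _root_.mul_inv_rev,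
    Units.val_mul, mul_assoc, ← mul_assoc (↑u⁻¹ : Matrix (Fin n) (Fin n) H), Units.inv_mul, one_mul]

lemma companion_lm {β : H} (hU : IsUnit (sc n β)) {A : ℕ → Matrix (Fin n) (Fin n) H} {ℓ : ℕ}
    (hA : IsUnit (A ℓ)) : companion ℓ (lm β A) = companion ℓ A := by
  ext1 p q
  unfold companion
  rw [inverse_lm hU hA]

lemma gmat_lm (β : H) (A : ℕ → Matrix (Fin n) (Fin n) H) (ℓ : ℕ) (p q : Fin ℓ × Fin n) :
    gmat ℓ (lm β A) p q = β * gmat ℓ A p q := by
  unfold gmat
  split_ifs with h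
  · rw [Matrix.smul_apply, Matrix.smul_apply, mul_smul_comm]
    rfl
  · rw [mul_zero]

lemma star_entry (hβ : β * β = -1) (hβs : star β = -β) (x y : H) :
    -(β * star x * β) = y ↔ star (β * x) = -(β * y) := by
  rw [star_mul, hβs, mul_neg, neg_inj]
  constructor
  · rintro rfl
    rw [mul_neg, ← mul_assoc, ← mul_assoc, hβ, neg_mul, neg_mul, one_mul, neg_neg]
  · intro h
    rw [mul_assoc, h, ← mul_assoc, hβ, neg_mul, one_mul, neg_neg]

lemma hypB_iff (hβ : β * β = -1) (hβs : star β = -β) (hφβ : ∀ x, φ x = -(β * star x * β))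
    {ℓ : ℕ} {A : ℕ → Matrix (Fin n) (Fin n) H} :
    HypB φ ℓ A ↔ (IsUnit (A ℓ) ∧ OddSym ℓ (lm β A)) := by
  have hev : ∀ k, phiT φ (A k) = A k ↔ (lm β A k)ᴴ = -lm β A k := by
    intro k
    constructor
    · intro h
      ext1 a b
      rw [Matrix.conjTranspose_apply, Matrix.neg_apply]
      have h1 : φ (A k b a) = A k a b := congrFun (congrFun h a) b
      rw [hφβ, star_entry hβ hβs] at h1
      exact h1
    · intro h
      ext1 a b
      have h1 : star (β * A k b a) = -(β * A k a b) := congrFun (congrFun h a) b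
      rw [← star_entry hβ hβs, ← hφβ] at h1
      exact h1
  have hod : ∀ k, phiT φ (A k) = -A k ↔ (lm β A k)ᴴ = lm β A k := by
    intro k
    constructor
    · intro h
      ext1 a b
      rw [Matrix.conjTranspose_apply]
      have h1 : φ (A k b a) = -A k a b := congrFun (congrFun h a) b
      rw [hφβ, star_entry hβ hβs, mul_neg, neg_neg] at h1
      exact h1
    · intro h
      ext1 a b
      have h1 : star (β * A k b a) = β * A k a b := congrFun (congrFun h a) b
      have h2 : star (β * A k b a) = -(β * (-A k a b)) := by rw [h1, mul_neg, neg_neg]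
      rw [← star_entry hβ hβs, ← hφβ] at h2
      exact h2
  unfold HypB OddSym
  constructor
  · rintro ⟨hu, h⟩
    exact ⟨hu, fun k hk => ⟨fun ho => (hod k).1 ((h k hk).2 ho), fun he => (hev k).1 ((h k hk).1 he)⟩⟩
  · rintro ⟨hu, h⟩
    exact ⟨hu, fun k hk => ⟨fun he => (hev k).2 ((h k hk).2 he), fun ho => (hod k).2 ((h k hk).1 ho)⟩⟩

end transfer

/-- **Q1 of MP_87a692_al holds**. -/
theorem main_phi (φ : H → H) (hφ : IsNonstandardInvolution φ) (n ℓ : ℕ) (hℓ : 2 ≤ ℓ)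
    (A : ℕ → Matrix (Fin n) (Fin n) H) (hB : HypB φ ℓ A) (hst : PhiStablyBounded φ ℓ A) (l : H)
    (hl : IsEigenvalue (companion ℓ A) l) :
    IsPhiDefinite φ (gmat ℓ A) (rootSubspace (companion ℓ A) l) := by
  obtain ⟨β, hβ, hβs, hφβ⟩ := invol_form hφ
  have hβ0 : β ≠ 0 := by
    rintro rfl
    rw [mul_zero] at hβ
    exact neg_ne_zero.2 one_ne_zero hβ.symm
  have hinv1 : β * (-β) = 1 := by rw [mul_neg, hβ, neg_neg]
  have hinv2 : (-β) * β = 1 := by rw [neg_mul, hβ, neg_neg]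
  have hnorm : ‖β‖ = 1 := by
    have h1 : ‖β‖ * ‖β‖ = 1 := by
      rw [← norm_mul, hβ, norm_neg, norm_one]
    have h2 : 0 ≤ ‖β‖ := norm_nonneg _
    nlinarith
  have hU : IsUnit (sc n β) := sc_unit hinv1 hinv2
  have hU' : IsUnit (sc n (-β)) := sc_unit hinv2 hinv1
  obtain ⟨hu, hsym⟩ := (hypB_iff hβ hβs hφβ).1 hB
  have hcomp : companion ℓ (lm β A) = companion ℓ A := companion_lm hU hu
  have huB : IsUnit (lm β A ℓ) := by rw [lm_eq]; exact hU.mul hu
  have hstB : StabInv ℓ (lm β A) := by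
    obtain ⟨ε, hε, h⟩ := hst
    refine ⟨ε, hε, fun B' hB' hB'u hclose => ?_⟩
    have hback : lm β (lm (-β) B') = B' := lm_lm hinv1 B'
    have h1 : HypB φ ℓ (lm (-β) B') := by
      rw [hypB_iff hβ hβs hφβ, hback]
      refine ⟨?_, hB'⟩
      rw [lm_eq]
      exact hU'.mul hB'u
    have h2 : IsBoundedSystem ℓ (lm (-β) B') := by
      apply h _ h1
      intro k hk a b
      have h3 := hclose k hk a b
      have h4 : lm (-β) B' k a b - A k a b = (-β) * (B' k a b - lm β A k a b) := by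
        simp only [lm, Matrix.of_apply]
        rw [mul_sub, ← mul_assoc (-β) β, hinv2, one_mul]
      rw [h4, norm_mul, norm_neg, hnorm, one_mul]
      exact h3
    exact (isBounded_lm (neg_ne_zero.2 hβ0)).1 h2
  have hlB : IsEigenvalue (companion ℓ (lm β A)) l := by rw [hcomp]; exact hl
  have hmain := main2 n ℓ hℓ (lm β A) hsym huB hstB l hlB
  rw [hcomp] at hmain
  intro x hx hx0 hzero
  have hform : star x ⬝ᵥ (gmat ℓ (lm β A) *ᵥ x) = β * ((fun i => φ (x i)) ⬝ᵥ (gmat ℓ A *ᵥ x)) := by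
    have h1 : gmat ℓ (lm β A) *ᵥ x = fun p => β * (gmat ℓ A *ᵥ x) p := by
      funext p
      simp only [Matrix.mulVec, dotProduct, Finset.mul_sum]
      apply Finset.sum_congr rfl
      intro q _
      rw [gmat_lm, mul_assoc]
    rw [h1]
    simp only [dotProduct, Finset.mul_sum, Pi.star_apply]
    apply Finset.sum_congr rfl
    intro p _
    rw [hφβ]
    rw [neg_mul, mul_neg, ← mul_assoc β, ← mul_assoc β, ← mul_assoc β, hβ, neg_mul, one_mul,
      neg_mul, neg_mul, neg_neg, mul_assoc]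
  rw [hzero, mul_zero] at hform
  rcases hmain with h | h
  · obtain ⟨r, hr, hr2⟩ := h x hx hx0
    rw [hform] at hr2
    have h3 : (0 : ℝ) = r := Quaternion.coe_injective (by rw [← hr2]; rfl)
    linarith
  · obtain ⟨r, hr, hr2⟩ := h x hx hx0
    rw [hform] at hr2
    have h3 : (0 : ℝ) = r := Quaternion.coe_injective (by rw [← hr2]; rfl)
    linarith

end Pool.Agent.Q260.QH
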